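import Pool.Agent.PChar823.Lab

set_option autoImplicit false


namespace PChar823

open Function

/-- no function on the 27 points of `AG(3,3)` has all line sums `25` in six directions -/
theorem no_count (N : ZMod 3 → ZMod 3 → ZMod 3 → ℕ)
    (h01 : ∀ a b, ∑ c, N a b c = 25) (h02 : ∀ a c, ∑ b, N a b c = 25)
    (h12 : ∀ b c, ∑ a, N a b c = 25) (h03 : ∀ a d, ∑ b, N a b (-d - a - b) = 25)
    (h13 : ∀ b d, ∑ a, N a b (-d - a - b) = 25)
    (h23 : ∀ c d, ∑ a, N a (-d - a - c) c = 25) : False := by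
  have e : ∀ g : ZMod 3 → ℕ, ∑ c, g c = g 0 + g 1 + g 2 := by
    intro g
    exact Fin.sum_univ_three g
  -- `N` is constant along `(0,1,1)`
  have k1 : ∀ a, N a 0 0 = N a 1 1 ∧ N a 1 1 = N a 2 2 ∧ N a 0 1 = N a 1 2 ∧ N a 1 2 = N a 2 0 ∧
      N a 0 2 = N a 1 0 ∧ N a 1 0 = N a 2 1 := by
    intro a
    have p0 := h01 a 0
    have p1 := h01 a 1
    have p2 := h01 a 2
    have q0 := h02 a 0
    have q1 := h02 a 1
    have q2 := h02 a 2
    have r0 := h03 a (-a)
    have r1 := h03 a (-a + 1)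
    have r2 := h03 a (-a + 2)
    rw [e] at p0 p1 p2 q0 q1 q2 r0 r1 r2
    have s : ∀ a b : ZMod 3, -(-a) - a - b = -b := by decide
    have s1 : ∀ a b : ZMod 3, -(-a + 1) - a - b = -b - 1 := by decide
    have s2 : ∀ a b : ZMod 3, -(-a + 2) - a - b = -b - 2 := by decide
    rw [s, s, s] at r0
    rw [s1, s1, s1] at r1
    rw [s2, s2, s2] at r2
    have c0 : (-0 : ZMod 3) = 0 := by decide
    have c1 : (-1 : ZMod 3) = 2 := by decide
    have c2 : (-2 : ZMod 3) = 1 := by decide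
    have c3 : (-0 - 1 : ZMod 3) = 2 := by decide
    have c4 : (-1 - 1 : ZMod 3) = 1 := by decide
    have c5 : (-2 - 1 : ZMod 3) = 0 := by decide
    have c6 : (-0 - 2 : ZMod 3) = 1 := by decide
    have c7 : (-1 - 2 : ZMod 3) = 0 := by decide
    have c8 : (-2 - 2 : ZMod 3) = 2 := by decide
    rw [c0, c1, c2] at r0
    rw [c3, c4, c5] at r1
    rw [c6, c7, c8] at r2
    refine ⟨?_, ?_, ?_, ?_, ?_, ?_⟩ <;> omega
  have k2 : ∀ b, N 0 b 0 = N 1 b 1 ∧ N 1 b 1 = N 2 b 2 ∧ N 0 b 1 = N 1 b 2 ∧ N 1 b 2 = N 2 b 0 ∧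
      N 0 b 2 = N 1 b 0 ∧ N 1 b 0 = N 2 b 1 := by
    intro b
    have p0 := h01 0 b
    have p1 := h01 1 b
    have p2 := h01 2 b
    have q0 := h12 b 0
    have q1 := h12 b 1
    have q2 := h12 b 2
    have r0 := h13 b (-b)
    have r1 := h13 b (-b + 1)
    have r2 := h13 b (-b + 2)
    rw [e] at p0 p1 p2 q0 q1 q2 r0 r1 r2
    have s : ∀ b a : ZMod 3, -(-b) - a - b = -a := by decide
    have s1 : ∀ b a : ZMod 3, -(-b + 1) - a - b = -a - 1 := by decide
    have s2 : ∀ b a : ZMod 3, -(-b + 2) - a - b = -a - 2 := by decide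
    rw [s, s, s] at r0
    rw [s1, s1, s1] at r1
    rw [s2, s2, s2] at r2
    have c0 : (-0 : ZMod 3) = 0 := by decide
    have c1 : (-1 : ZMod 3) = 2 := by decide
    have c2 : (-2 : ZMod 3) = 1 := by decide
    have c3 : (-0 - 1 : ZMod 3) = 2 := by decide
    have c4 : (-1 - 1 : ZMod 3) = 1 := by decide
    have c5 : (-2 - 1 : ZMod 3) = 0 := by decide
    have c6 : (-0 - 2 : ZMod 3) = 1 := by decide
    have c7 : (-1 - 2 : ZMod 3) = 0 := by decide
    have c8 : (-2 - 2 : ZMod 3) = 2 := by decide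
    rw [c0, c1, c2] at r0
    rw [c3, c4, c5] at r1
    rw [c6, c7, c8] at r2
    refine ⟨?_, ?_, ?_, ?_, ?_, ?_⟩ <;> omega
  have a0 := k1 0
  have a1 := k1 1
  have a2 := k1 2
  have b0 := k2 0
  have b1 := k2 1
  have b2 := k2 2
  have p0 := h23 0 0
  rw [e] at p0
  have c0 : (-0 - 0 - 0 : ZMod 3) = 0 := by decide
  have c1 : (-0 - 1 - 0 : ZMod 3) = 2 := by decide
  have c2 : (-0 - 2 - 0 : ZMod 3) = 1 := by decide
  rw [c0, c1, c2] at p0
  omega


/-- pairs of balanced functions -/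
theorem pair_count {Z : Type} [Fintype Z] [DecidableEq Z] (α β : Z → ZMod 3)
    (hα : ∀ s, (Finset.univ.filter (fun z => α z = s)).card = 5)
    (hβ : ∀ s, (Finset.univ.filter (fun z => β z = s)).card = 5)
    (ψ : Z × Z → Z × Z) (hψ : Bijective ψ) (a b : ZMod 3) :
    (Finset.univ.filter (fun p : Z × Z => α (ψ p).1 = a ∧ β (ψ p).2 = b)).card = 25 := by
  have h1 : (Finset.univ.filter (fun p : Z × Z => α (ψ p).1 = a ∧ β (ψ p).2 = b)).card =
      (Finset.univ.filter (fun p : Z × Z => α p.1 = a ∧ β p.2 = b)).card := by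
    apply Finset.card_bij (fun p _ => ψ p)
    · intro p hp
      simpa using hp
    · intro p _ p' _ h
      exact hψ.1 h
    · intro p hp
      obtain ⟨p', rfl⟩ := hψ.2 p
      exact ⟨p', by simpa using hp, rfl⟩
  have h2 : (Finset.univ.filter (fun p : Z × Z => α p.1 = a ∧ β p.2 = b)) =
      (Finset.univ.filter (fun z => α z = a)) ×ˢ (Finset.univ.filter (fun z => β z = b)) := by
    ext p
    simp
  rw [h1, h2, Finset.card_product, hα, hβ]

/-- The coordinates `A` determine the coordinate `e` on the code `C`. -/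
def CDet {Z : Type} (C : Set (Fin 9 → Z)) (A : Finset (Fin 9)) (e : Fin 9) : Prop :=
  ∀ c ∈ C, ∀ c' ∈ C, (∀ f ∈ A, c f = c' f) → c e = c' e

theorem no_code {Z : Type} [Fintype Z] [DecidableEq Z] (hZ : Fintype.card Z = 15)
    (C : Set (Fin 9 → Z))
    (full4 : ∀ x y w v, ∃ c ∈ C, c 3 = x ∧ c 0 = y ∧ c 1 = w ∧ c 2 = v)
    (d0 : CDet C {3, 0} 4) (d0' : CDet C {0, 4} 3) (d0'' : CDet C {3, 4} 0)
    (d1 : CDet C {0, 1} 5) (d1' : CDet C {0, 5} 1) (d1'' : CDet C {1, 5} 0)
    (d2 : CDet C {1, 2} 6) (d2' : CDet C {1, 6} 2) (d2'' : CDet C {2, 6} 1)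
    (d3 : CDet C {2, 3} 7) (d3' : CDet C {2, 7} 3) (d3'' : CDet C {3, 7} 2)
    (c1 : CDet C {4, 6, 7} 5)
    (c3 : CDet C {4, 5, 6} 7)
    (full3 : ∀ i ∈ ({4, 5, 6, 7} : Finset (Fin 9)), ∀ j ∈ ({4, 5, 6, 7} : Finset (Fin 9)), i ≠ j →
      ∀ s t u, ∃ c ∈ C, c i = s ∧ c j = t ∧ c 8 = u)
    (det3 : ∀ i ∈ ({4, 5, 6, 7} : Finset (Fin 9)), ∀ j ∈ ({4, 5, 6, 7} : Finset (Fin 9)), i ≠ j →
      ∀ k ∈ ({4, 5, 6, 7} : Finset (Fin 9)), CDet C {i, j, 8} k) : False := by
  classical
  haveI : Nonempty Z := by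
    rw [← Fintype.card_pos_iff, hZ]; norm_num
  obtain ⟨z0⟩ := ‹Nonempty Z›
  have bij : ∀ k : Z → Z, Injective k → Bijective k := fun k hk => Finite.injective_iff_bijective.1 hk
  choose K hKC hK3 hK0 hK1 hK2 using full4
  -- the functions
  let f0 : Z → Z → Z := fun x y => K x y z0 z0 4
  let f1 : Z → Z → Z := fun y w => K z0 y w z0 5
  let f2 : Z → Z → Z := fun w v => K z0 z0 w v 6
  let f3 : Z → Z → Z := fun v x => K x z0 z0 v 7
  have hf0 : ∀ c ∈ C, c 4 = f0 (c 3) (c 0) := by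
    intro c hc
    apply d0 c hc _ (hKC _ _ _ _)
    simp [hK3, hK0]
  have hf1 : ∀ c ∈ C, c 5 = f1 (c 0) (c 1) := by
    intro c hc
    apply d1 c hc _ (hKC _ _ _ _)
    simp [hK1, hK0]
  have hf2 : ∀ c ∈ C, c 6 = f2 (c 1) (c 2) := by
    intro c hc
    apply d2 c hc _ (hKC _ _ _ _)
    simp [hK1, hK2]
  have hf3 : ∀ c ∈ C, c 7 = f3 (c 2) (c 3) := by
    intro c hc
    apply d3 c hc _ (hKC _ _ _ _)
    simp [hK3, hK2]
  have K4 : ∀ x y w v, K x y w v 4 = f0 x y := by
    intro x y w v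
    rw [hf0 _ (hKC x y w v), hK3, hK0]
  have K5 : ∀ x y w v, K x y w v 5 = f1 y w := by
    intro x y w v
    rw [hf1 _ (hKC x y w v), hK1, hK0]
  have K6 : ∀ x y w v, K x y w v 6 = f2 w v := by
    intro x y w v
    rw [hf2 _ (hKC x y w v), hK1, hK2]
  have K7 : ∀ x y w v, K x y w v 7 = f3 v x := by
    intro x y w v
    rw [hf3 _ (hKC x y w v), hK2, hK3]
  -- Latin properties
  have i0 : ∀ y, Injective fun x => f0 x y := by
    intro y x x' h
    have := d0' (K x y z0 z0) (hKC _ _ _ _) (K x' y z0 z0) (hKC _ _ _ _)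
      (by simp only [Finset.mem_insert, Finset.mem_singleton]; rintro f (rfl | rfl)
          · rw [hK0, hK0]
          · rw [K4, K4]; exact h)
    rwa [hK3, hK3] at this
  have i0' : ∀ x, Injective (f0 x) := by
    intro x y y' h
    have := d0'' (K x y z0 z0) (hKC _ _ _ _) (K x y' z0 z0) (hKC _ _ _ _)
      (by simp only [Finset.mem_insert, Finset.mem_singleton]; rintro f (rfl | rfl)
          · rw [hK3, hK3]
          · rw [K4, K4]; exact h)
    rwa [hK0, hK0] at this
  have i1 : ∀ y, Injective (f1 y) := by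
    intro y w w' h
    have := d1' (K z0 y w z0) (hKC _ _ _ _) (K z0 y w' z0) (hKC _ _ _ _)
      (by simp only [Finset.mem_insert, Finset.mem_singleton]; rintro f (rfl | rfl)
          · rw [hK0, hK0]
          · rw [K5, K5]; exact h)
    rwa [hK1, hK1] at this
  have i1' : ∀ w, Injective fun y => f1 y w := by
    intro w y y' h
    have := d1'' (K z0 y w z0) (hKC _ _ _ _) (K z0 y' w z0) (hKC _ _ _ _)
      (by simp only [Finset.mem_insert, Finset.mem_singleton]; rintro f (rfl | rfl)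
          · rw [hK1, hK1]
          · rw [K5, K5]; exact h)
    rwa [hK0, hK0] at this
  have i2 : ∀ w, Injective (f2 w) := by
    intro w v v' h
    have := d2' (K z0 z0 w v) (hKC _ _ _ _) (K z0 z0 w v') (hKC _ _ _ _)
      (by simp only [Finset.mem_insert, Finset.mem_singleton]; rintro f (rfl | rfl)
          · rw [hK1, hK1]
          · rw [K6, K6]; exact h)
    rwa [hK2, hK2] at this
  have i2' : ∀ v, Injective fun w => f2 w v := by
    intro v w w' h
    have := d2'' (K z0 z0 w v) (hKC _ _ _ _) (K z0 z0 w' v) (hKC _ _ _ _)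
      (by simp only [Finset.mem_insert, Finset.mem_singleton]; rintro f (rfl | rfl)
          · rw [hK2, hK2]
          · rw [K6, K6]; exact h)
    rwa [hK1, hK1] at this
  have i3 : ∀ v, Injective (f3 v) := by
    intro v x x' h
    have := d3' (K x z0 z0 v) (hKC _ _ _ _) (K x' z0 z0 v) (hKC _ _ _ _)
      (by simp only [Finset.mem_insert, Finset.mem_singleton]; rintro f (rfl | rfl)
          · rw [hK2, hK2]
          · rw [K7, K7]; exact h)
    rwa [hK3, hK3] at this
  have i3' : ∀ x, Injective fun v => f3 v x := by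
    intro x v v' h
    have := d3'' (K x z0 z0 v) (hKC _ _ _ _) (K x z0 z0 v') (hKC _ _ _ _)
      (by simp only [Finset.mem_insert, Finset.mem_singleton]; rintro f (rfl | rfl)
          · rw [hK3, hK3]
          · rw [K7, K7]; exact h)
    rwa [hK2, hK2] at this
  -- the class function
  have hv : ∀ w, ∃ v, f2 w v = z0 := fun w => (bij _ (i2 w)).2 z0
  choose V hV using hv
  let h : Z → Z → Z := fun x w => f3 (V w) x
  have hm : ∃ m : Z → Z → Z, ∀ x y w, m (f0 x y) (f1 y w) = h x w := by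
    refine ⟨fun e0 e1 => if H : ∃ c ∈ C, c 4 = e0 ∧ c 5 = e1 ∧ c 6 = z0 then (Classical.choose H) 7
      else z0, ?_⟩
    intro x y w
    have H : ∃ c ∈ C, c 4 = f0 x y ∧ c 5 = f1 y w ∧ c 6 = z0 :=
      ⟨K x y w (V w), hKC _ _ _ _, K4 _ _ _ _, K5 _ _ _ _, by rw [K6, hV]⟩
    simp only [dif_pos H]
    obtain ⟨q1, q2, q3, q4⟩ := Classical.choose_spec H
    have := c3 _ q1 (K x y w (V w)) (hKC _ _ _ _)
      (by simp only [Finset.mem_insert, Finset.mem_singleton]; rintro f (rfl | rfl | rfl)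
          · rw [q2, K4]
          · rw [q3, K5]
          · rw [q4, K6, hV])
    rw [this, K7]
  obtain ⟨m, hm⟩ := hm
  -- the key equality
  have star : ∀ w v x w1 v1 x1, f2 w v = f2 w1 v1 → f3 v x = f3 v1 x1 → h x w = h x1 w1 := by
    intro w v x w1 v1 x1 e2 e3
    obtain ⟨y1, hy1⟩ := (bij _ (i0' x1)).2 (f0 x z0)
    have e1 : f1 z0 w = f1 y1 w1 := by
      have := c1 (K x z0 w v) (hKC _ _ _ _) (K x1 y1 w1 v1) (hKC _ _ _ _)
        (by simp only [Finset.mem_insert, Finset.mem_singleton]; rintro f (rfl | rfl | rfl)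
            · rw [K4, K4, hy1]
            · rw [K6, K6, e2]
            · rw [K7, K7, e3])
      rwa [K5, K5] at this
    rw [← hm x z0 w, ← hm x1 y1 w1, hy1, e1]
  have hh1 : ∀ w, Injective fun x => h x w := fun w => i3 (V w)
  have hh2 : ∀ x, Injective (h x) := by
    intro x w w' hw
    -- m (f0 x z0) (f1 z0 w) = m (f0 x z0) (f1 z0 w')
    have e7 : f3 (V w) x = f3 (V w') x := hw
    have := c1 (K x z0 w (V w)) (hKC _ _ _ _) (K x z0 w' (V w')) (hKC _ _ _ _)
        (by simp only [Finset.mem_insert, Finset.mem_singleton]; rintro f (rfl | rfl | rfl)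
            · rw [K4, K4]
            · rw [K6, K6, hV, hV]
            · rw [K7, K7, e7])
    rw [K5, K5] at this
    exact i1 z0 this
  obtain ⟨A, B, C', ε0, ε1, hA, hC', hε0, hε1, hAC⟩ :=
    labels hZ f0 f1 h m i0 i0' i1 hh1 hh2 hm
  -- the labels of the other half
  let F2 : Equiv.Perm Z := Equiv.ofBijective (fun w => f2 w z0) (bij _ (i2' z0))
  let F3 : Equiv.Perm Z := Equiv.ofBijective (f3 z0) (bij _ (i3 z0))
  let ε2 : Z → ZMod 3 := fun e => C' (F2.symm e)
  let ε3 : Z → ZMod 3 := fun e => A (F3.symm e)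
  have rel : ∀ c ∈ C, ε0 (c 4) - ε1 (c 5) + ε2 (c 6) - ε3 (c 7) = 0 := by
    intro c hc
    have h1 : ε0 (c 4) = A (c 3) + B (c 0) := by rw [hf0 c hc, hε0]
    have h2 : ε1 (c 5) = B (c 0) + C' (c 1) := by rw [hf1 c hc, hε1]
    have h3 : h (c 3) (c 1) = h (F3.symm (c 7)) (F2.symm (c 6)) := by
      apply star (c 1) (c 2) (c 3) (F2.symm (c 6)) z0 (F3.symm (c 7))
      · rw [← hf2 c hc]
        exact (F2.apply_symm_apply (c 6)).symm
      · rw [← hf3 c hc]
        exact (F3.apply_symm_apply (c 7)).symm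
    have h4 := hAC _ _ _ _ h3
    rw [h1, h2]
    show A (c 3) + B (c 0) - (B (c 0) + C' (c 1)) + C' (F2.symm (c 6)) - A (F3.symm (c 7)) = 0
    linear_combination h4
  -- balanced labels
  have bal_of : ∀ (e : Equiv.Perm Z) (L L' : Z → ZMod 3) (k : ZMod 3), (∀ z, L' (e z) = L z + k) →
      (∀ s, (Finset.univ.filter (fun z => L z = s)).card = 5) →
      ∀ s, (Finset.univ.filter (fun z => L' z = s)).card = 5 := by
    intro e L L' k hL hb s
    rw [← hb (s - k)]
    symm
    apply Finset.card_bij (fun z _ => e z)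
    · intro z hz
      simp only [Finset.mem_filter, Finset.mem_univ, true_and] at hz ⊢
      rw [hL, hz]; ring
    · intro z _ z' _ hz
      exact e.injective hz
    · intro z hz
      simp only [Finset.mem_filter, Finset.mem_univ, true_and] at hz
      refine ⟨e.symm z, ?_, by simp⟩
      simp only [Finset.mem_filter, Finset.mem_univ, true_and]
      have := hL (e.symm z)
      rw [e.apply_symm_apply, hz] at this
      linear_combination -this
  have bneg : ∀ L : Z → ZMod 3, (∀ s, (Finset.univ.filter (fun z => L z = s)).card = 5) →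
      ∀ s, (Finset.univ.filter (fun z => - L z = s)).card = 5 := by
    intro L hb s
    rw [← hb (-s)]
    congr 1
    ext z
    simp only [Finset.mem_filter, Finset.mem_univ, true_and]
    constructor
    · intro hz; rw [← hz]; ring
    · intro hz; rw [hz]; ring
  have b0 : ∀ s, (Finset.univ.filter (fun z => ε0 z = s)).card = 5 :=
    bal_of (Equiv.ofBijective (fun x => f0 x z0) (bij _ (i0 z0))) A ε0 (B z0)
      (fun z => hε0 z z0) hA
  have b1 : ∀ s, (Finset.univ.filter (fun z => ε1 z = s)).card = 5 :=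
    bal_of (Equiv.ofBijective (f1 z0) (bij _ (i1 z0))) C' ε1 (B z0)
      (fun z => by rw [add_comm]; exact hε1 z0 z) hC'
  have b2 : ∀ s, (Finset.univ.filter (fun z => ε2 z = s)).card = 5 :=
    bal_of F2 C' ε2 0 (fun z => by
      show C' (F2.symm (F2 z)) = C' z + 0
      rw [F2.symm_apply_apply, add_zero]) hC'
  have b3 : ∀ s, (Finset.univ.filter (fun z => ε3 z = s)).card = 5 :=
    bal_of F3 A ε3 0 (fun z => by
      show A (F3.symm (F3 z)) = A z + 0
      rw [F3.symm_apply_apply, add_zero]) hA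
  -- the array
  have T : ∀ p : Z × Z, ∃ c ∈ C, c 4 = p.1 ∧ c 5 = p.2 ∧ c 8 = z0 := fun p =>
    full3 4 (by simp) 5 (by simp) (by decide) p.1 p.2 z0
  choose W hWC hW4 hW5 hW8 using T
  have hinj : ∀ i ∈ ({4, 5, 6, 7} : Finset (Fin 9)), ∀ j ∈ ({4, 5, 6, 7} : Finset (Fin 9)), i ≠ j →
      Bijective (fun p : Z × Z => (W p i, W p j)) := by
    intro i hi j hj hij
    rw [← Finite.injective_iff_bijective]
    intro p p' hpp
    simp only [Prod.mk.injEq] at hpp
    have h8 : ∀ f ∈ ({i, j, 8} : Finset (Fin 9)), W p f = W p' f := by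
      simp only [Finset.mem_insert, Finset.mem_singleton]
      rintro f (rfl | rfl | rfl)
      · exact hpp.1
      · exact hpp.2
      · rw [hW8, hW8]
    have e4 := det3 i hi j hj hij 4 (by simp) _ (hWC p) _ (hWC p') h8
    have e5 := det3 i hi j hj hij 5 (by simp) _ (hWC p) _ (hWC p') h8
    rw [hW4, hW4] at e4
    rw [hW5, hW5] at e5
    exact Prod.ext e4 e5
  let u0 : Z × Z → ZMod 3 := fun p => ε0 (W p 4)
  let u1 : Z × Z → ZMod 3 := fun p => - ε1 (W p 5)
  let u2 : Z × Z → ZMod 3 := fun p => ε2 (W p 6)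
  let u3 : Z × Z → ZMod 3 := fun p => - ε3 (W p 7)
  have hu : ∀ p, u3 p = - u0 p - u1 p - u2 p := by
    intro p
    have := rel _ (hWC p)
    show - ε3 (W p 7) = - ε0 (W p 4) - (- ε1 (W p 5)) - ε2 (W p 6)
    linear_combination this
  have P01 : ∀ a b, (Finset.univ.filter (fun p => u0 p = a ∧ u1 p = b)).card = 25 := fun a b =>
    pair_count ε0 (fun z => - ε1 z) b0 (bneg _ b1) _ (hinj 4 (by simp) 5 (by simp) (by decide)) a b
  have P02 : ∀ a b, (Finset.univ.filter (fun p => u0 p = a ∧ u2 p = b)).card = 25 := fun a b =>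
    pair_count ε0 ε2 b0 b2 _ (hinj 4 (by simp) 6 (by simp) (by decide)) a b
  have P12 : ∀ a b, (Finset.univ.filter (fun p => u1 p = a ∧ u2 p = b)).card = 25 := fun a b =>
    pair_count (fun z => - ε1 z) ε2 (bneg _ b1) b2 _ (hinj 5 (by simp) 6 (by simp) (by decide)) a b
  have P03 : ∀ a b, (Finset.univ.filter (fun p => u0 p = a ∧ u3 p = b)).card = 25 := fun a b =>
    pair_count ε0 (fun z => - ε3 z) b0 (bneg _ b3) _ (hinj 4 (by simp) 7 (by simp) (by decide)) a b
  have P13 : ∀ a b, (Finset.univ.filter (fun p => u1 p = a ∧ u3 p = b)).card = 25 := fun a b =>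
    pair_count (fun z => - ε1 z) (fun z => - ε3 z) (bneg _ b1) (bneg _ b3) _
      (hinj 5 (by simp) 7 (by simp) (by decide)) a b
  have P23 : ∀ a b, (Finset.univ.filter (fun p => u2 p = a ∧ u3 p = b)).card = 25 := fun a b =>
    pair_count ε2 (fun z => - ε3 z) b2 (bneg _ b3) _
      (hinj 6 (by simp) 7 (by simp) (by decide)) a b
  -- counts
  let N : ZMod 3 → ZMod 3 → ZMod 3 → ℕ := fun a b c =>
    (Finset.univ.filter (fun p => u0 p = a ∧ u1 p = b ∧ u2 p = c)).card
  have fib : ∀ (Pr : Z × Z → Prop) [DecidablePred Pr] (u : Z × Z → ZMod 3),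
      (Finset.univ.filter Pr).card = ∑ c, (Finset.univ.filter (fun p => Pr p ∧ u p = c)).card := by
    intro Pr _ u
    rw [Finset.card_eq_sum_card_fiberwise (f := u) (t := Finset.univ) (fun p _ => by simp)]
    apply Finset.sum_congr rfl
    intro c _
    rw [Finset.filter_filter]
  apply no_count N
  · intro a b
    rw [← P01 a b, fib _ u2]
    apply Finset.sum_congr rfl
    intro c _
    refine congrArg Finset.card ?_
    ext p; simp only [Finset.mem_filter, Finset.mem_univ, true_and]; tauto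
  · intro a c
    rw [← P02 a c, fib _ u1]
    apply Finset.sum_congr rfl
    intro b _
    refine congrArg Finset.card ?_
    ext p; simp only [Finset.mem_filter, Finset.mem_univ, true_and]; tauto
  · intro b c
    rw [← P12 b c, fib _ u0]
    apply Finset.sum_congr rfl
    intro a _
    refine congrArg Finset.card ?_
    ext p; simp only [Finset.mem_filter, Finset.mem_univ, true_and]; tauto
  · intro a d
    rw [← P03 a d, fib _ u1]
    apply Finset.sum_congr rfl
    intro b _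
    refine congrArg Finset.card ?_
    ext p
    simp only [Finset.mem_filter, Finset.mem_univ, true_and]
    rw [hu p]
    constructor
    · rintro ⟨h1, h2, h3⟩
      refine ⟨⟨h1, ?_⟩, h2⟩
      rw [h1, h2, h3]; ring
    · rintro ⟨⟨h1, h2⟩, h3⟩
      refine ⟨h1, h3, ?_⟩
      rw [← h2, ← h1, ← h3]; ring
  · intro b d
    rw [← P13 b d, fib _ u0]
    apply Finset.sum_congr rfl
    intro a _
    refine congrArg Finset.card ?_
    ext p
    simp only [Finset.mem_filter, Finset.mem_univ, true_and]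
    rw [hu p]
    constructor
    · rintro ⟨h1, h2, h3⟩
      refine ⟨⟨h2, ?_⟩, h1⟩
      rw [h1, h2, h3]; ring
    · rintro ⟨⟨h1, h2⟩, h3⟩
      refine ⟨h3, h1, ?_⟩
      rw [← h2, ← h1, ← h3]; ring
  · intro c d
    rw [← P23 c d, fib _ u0]
    apply Finset.sum_congr rfl
    intro a _
    refine congrArg Finset.card ?_
    ext p
    simp only [Finset.mem_filter, Finset.mem_univ, true_and]
    rw [hu p]
    constructor
    · rintro ⟨h1, h2, h3⟩
      refine ⟨⟨h3, ?_⟩, h1⟩
      rw [h1, h2, h3]; ring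
    · rintro ⟨⟨h1, h2⟩, h3⟩
      refine ⟨h3, ?_, h1⟩
      rw [← h2, ← h1, ← h3]; ring

end PChar823
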