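import Mathlib

set_option autoImplicit false

/-!
# Entropy functions of random vectors and p-characteristic sets of matroids
-/

namespace PChar823

/-- Shannon entropy (in nats) of a probability mass function. -/
noncomputable def entropy {β : Type} (p : PMF β) : ℝ := ∑' b, Real.negMulLog (p b).toReal

/-- The entropy is finite: the (non-negative) terms `- p b * log (p b)` are summable. -/
def FiniteEntropy {β : Type} (p : PMF β) : Prop := Summable fun b => Real.negMulLog (p b).toReal

/-- `Γ*_N`: the set of all entropy functions `A ↦ H(X_A)` of discrete random vectors
`X_N = (X_i : i ∈ N)` with finite joint entropy. The vector is given by its joint law, an arbitrary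
probability mass function on the product of arbitrary alphabets `α i`, and `X_A` is its image under
the restriction to `A`. -/
def GammaStar (N : Type) : Set (Set N → ℝ) :=
  {h | ∃ (α : N → Type) (P : PMF (∀ i, α i)), FiniteEntropy P ∧
    ∀ A : Set N, h A = entropy (P.map fun x (i : A) => x i)}

/-- The p-characteristic set `χ_M` of a matroid `M` on the ground set `N`: the integers `v ≥ 2` such
that `log v` times the rank function of `M` is an entropy function. -/
def pCharSet {N : Type} (M : Matroid N) : Set ℤ :=
  {v | 2 ≤ v ∧ (fun A : Set N => Real.log v * ((M.eRk A).toNat : ℝ)) ∈ GammaStar N}

end PChar823
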