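import Pool.Agent.PChar823.Model

set_option autoImplicit false


namespace PChar823

theorem exists_rep (A : Finset (Fin 9)) : ∃ n < 512, Rep n A := by
  induction A using Finset.induction_on with
  | empty => exact ⟨0, by norm_num, fun e => by simp⟩
  | insert e A _ ih =>
    obtain ⟨n, hn, hr⟩ := ih
    refine ⟨n ||| 2 ^ (e : ℕ), ?_, ?_⟩
    · exact Nat.or_lt_two_pow (n := 9) hn (Nat.pow_lt_pow_right (by norm_num) e.2)
    · intro f
      rw [Nat.testBit_or, hr f, Nat.testBit_two_pow]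
      by_cases h : f = e
      · subst h; simp
      · have h1 : ¬ ((e : ℕ) = (f : ℕ)) := fun h' => h (Fin.ext h'.symm)
        simp [h, h1]

theorem rep_insert {n : ℕ} {A : Finset (Fin 9)} (h : Rep n A) (e : Fin 9) :
    Rep (n ||| 2 ^ (e : ℕ)) (insert e A) := by
  intro f
  rw [Nat.testBit_or, h f, Nat.testBit_two_pow]
  by_cases h : f = e
  · subst h; simp
  · have h1 : ¬ ((e : ℕ) = (f : ℕ)) := fun h' => h (Fin.ext h'.symm)
    simp [h, h1]

theorem rep_unique {n n' : ℕ} {A : Finset (Fin 9)} (hn : n < 512) (hn' : n' < 512)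
    (h : Rep n A) (h' : Rep n' A) : n = n' := by
  apply Nat.eq_of_testBit_eq
  intro i
  by_cases hi : i < 9
  · rw [h ⟨i, hi⟩, h' ⟨i, hi⟩]
  · have h1 : n < 2 ^ i := lt_of_lt_of_le hn (by
      calc 512 = 2 ^ 9 := by norm_num
        _ ≤ 2 ^ i := Nat.pow_le_pow_right (by norm_num) (by omega))
    have h2 : n' < 2 ^ i := lt_of_lt_of_le hn' (by
      calc 512 = 2 ^ 9 := by norm_num
        _ ≤ 2 ^ i := Nat.pow_le_pow_right (by norm_num) (by omega))
    rw [Nat.testBit_lt_two_pow h1, Nat.testBit_lt_two_pow h2]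

theorem chk_spec {n : ℕ} (hn : n < 512) (e : Fin 9) :
    ((clR n).testBit e = true ∧ rkN (n ||| 2 ^ (e : ℕ)) = rkN n) ∨
    (rkN (n ||| 2 ^ (e : ℕ)) = rkN n + 1 ∧ ∃ D ∈ cocs, D.testBit e = true ∧ D &&& n = 0) := by
  have h := chk_all n hn
  unfold chk at h
  rw [List.all_eq_true] at h
  have h1 := h e (List.mem_range.2 e.2)
  by_cases hc : (clR n).testBit e = true
  · left
    rw [if_pos hc] at h1
    exact ⟨hc, by simpa using h1⟩
  · right
    rw [if_neg hc, Bool.and_eq_true, List.any_eq_true] at h1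
    obtain ⟨h2, D, hD, h3⟩ := h1
    rw [Bool.and_eq_true] at h3
    exact ⟨by simpa using h2, D, hD, h3.1, by simpa using h3.2⟩

theorem det_of_cl {n : ℕ} {A : Finset (Fin 9)} (h : Rep n A) (e : Fin 9)
    (hc : (clR n).testBit e = true) : Det XX A e := by
  intro ω ω' hA
  apply agree_cl n ω ω' _ e hc
  intro f hf
  rw [h f, decide_eq_true_eq] at hf
  exact hA f hf

theorem free_of_coc {n : ℕ} {A : Finset (Fin 9)} (h : Rep n A) (e : Fin 9) (D : ℕ) (hD : D ∈ cocs)
    (he : D.testBit e = true) (hDn : D &&& n = 0) : Free XX A e := by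
  have hA : ∀ f ∈ A, D.testBit f = false := by
    intro f hf
    have h1 : (D &&& n).testBit f = false := by rw [hDn]; simp
    rw [Nat.testBit_and, h f] at h1
    simpa [hf] using h1
  rcases cocs_ok D hD with ⟨W, hW⟩ | ⟨j, hj⟩
  · refine ⟨shW W, ?_, ?_⟩
    · intro s ω f hf
      exact shW_fix W f (by rw [← hW]; exact hA f hf) s ω
    · intro ω
      exact shW_inj W e (by rw [← hW]; exact he) ω
  · refine ⟨shJ j, ?_, ?_⟩
    · intro s ω f hf
      exact shJ_fix j f (by rw [← hj]; exact hA f hf) s ω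
    · intro ω
      exact shJ_inj j e (by rw [← hj]; exact he) ω

theorem dichotomy (A : Finset (Fin 9)) (e : Fin 9) : Det XX A e ∨ Free XX A e := by
  obtain ⟨n, hn, hr⟩ := exists_rep A
  rcases chk_spec hn e with ⟨h1, _⟩ | ⟨_, D, hD, h1, h2⟩
  · exact Or.inl (det_of_cl hr e h1)
  · exact Or.inr (free_of_coc hr e D hD h1 h2)

/-- The rank function and the matroid. -/
theorem exists_model : ∃ (M : Matroid (Fin 9)) (r : Finset (Fin 9) → ℕ), M.E = Set.univ ∧
    (∀ A : Finset (Fin 9), M.eRk (A : Set (Fin 9)) = r A) ∧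
    (∀ A ω, (fib XX A ω).card * 15 ^ (r A) = 15 ^ 5) ∧
    (∀ A : Finset (Fin 9), ∀ n < 512, Rep n A → r A = rkN n) := by
  have hcardZ : Fintype.card (ZMod 15) = 15 := ZMod.card 15
  obtain ⟨r, h1, h2, h3, h4⟩ := exists_rank XX (by rw [hcardZ]; norm_num) dichotomy
  obtain ⟨M, hM1, hM2⟩ := exists_matroid XX dichotomy r h2 h3 h4
  refine ⟨M, r, hM1, hM2, ?_, ?_⟩
  · intro A ω
    have := h1 A ω
    rw [hcardZ] at this
    rw [this]
    simp only [Om, Fintype.card_prod, Fintype.card_pi, hcardZ, Finset.prod_const, Finset.card_univ,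
      Fintype.card_fin]
    norm_num
  · intro A
    induction A using Finset.induction_on with
    | empty =>
      intro n hn hr
      have : n = 0 := rep_unique hn (by norm_num) hr (fun e => by simp)
      rw [this, h2]
      decide
    | insert e A _ ih =>
      intro n hn hr
      obtain ⟨n', hn', hr'⟩ := exists_rep A
      have h5 : n = n' ||| 2 ^ (e : ℕ) := by
        apply rep_unique hn _ hr (rep_insert hr' e)
        exact Nat.or_lt_two_pow (n := 9) hn' (Nat.pow_lt_pow_right (by norm_num) e.2)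
      rw [h5]
      rcases chk_spec hn' e with ⟨h6, h7⟩ | ⟨h7, D, hD, h8, h9⟩
      · rw [h7, ← ih n' hn' hr']
        exact h3 A e (det_of_cl hr' e h6)
      · rw [h7, ← ih n' hn' hr']
        exact h4 A e (free_of_coc hr' e D hD h8 h9)

end PChar823
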