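import Pool.Agent.PChar823.Defs

set_option autoImplicit false


namespace PChar823

open scoped ENNReal

section
variable {Ω β : Type} (P : PMF Ω) (Y : Ω → β)

/-- the probability of the atom of `Y` containing `ω` -/
noncomputable def atom (ω : Ω) : ℝ≥0∞ := P.map Y (Y ω)

open Classical in
theorem atom_eq (ω : Ω) : atom P Y ω = ∑' ω', if Y ω = Y ω' then P ω' else 0 := by
  unfold atom
  rw [PMF.map_apply]

theorem atom_le_one (ω : Ω) : atom P Y ω ≤ 1 := PMF.coe_le_one _ _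

theorem le_atom (ω : Ω) : P ω ≤ atom P Y ω := by
  classical
  rw [atom_eq]
  calc P ω = if Y ω = Y ω then P ω else 0 := by simp
    _ ≤ _ := ENNReal.le_tsum (f := fun ω' => if Y ω = Y ω' then P ω' else 0) ω

theorem atom_ne_top (ω : Ω) : atom P Y ω ≠ ∞ := ne_top_of_le_ne_top ENNReal.one_ne_top (atom_le_one P Y ω)

theorem toReal_le_one' (ω : Ω) : (P ω).toReal ≤ 1 := by
  have := ENNReal.toReal_mono ENNReal.one_ne_top (P.coe_le_one ω)
  simpa using this

theorem atom_toReal_le_one (ω : Ω) : (atom P Y ω).toReal ≤ 1 := by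
  have := ENNReal.toReal_mono ENNReal.one_ne_top (atom_le_one P Y ω)
  simpa using this

theorem le_atom_toReal (ω : Ω) : (P ω).toReal ≤ (atom P Y ω).toReal :=
  ENNReal.toReal_mono (atom_ne_top P Y ω) (le_atom P Y ω)

theorem term_nonneg (ω : Ω) : 0 ≤ (P ω).toReal * (-Real.log (atom P Y ω).toReal) := by
  apply mul_nonneg ENNReal.toReal_nonneg
  have := Real.log_nonpos ENNReal.toReal_nonneg (atom_toReal_le_one P Y ω)
  linarith

theorem term_summable (h : FiniteEntropy P) :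
    Summable fun ω => (P ω).toReal * (-Real.log (atom P Y ω).toReal) := by
  apply Summable.of_nonneg_of_le (term_nonneg P Y) _ h
  intro ω
  unfold Real.negMulLog
  rcases eq_or_lt_of_le (ENNReal.toReal_nonneg (a := P ω)) with h0 | h0
  · rw [← h0]; simp
  · have := Real.log_le_log h0 (le_atom_toReal P Y ω)
    nlinarith

theorem hasSum_entropy_map (h : FiniteEntropy P) :
    HasSum (fun ω => (P ω).toReal * (-Real.log (atom P Y ω).toReal)) (entropy (P.map Y)) := by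
  classical
  have hs := term_summable P Y h
  have h1 := hs.hasSum
  rw [← (Equiv.sigmaFiberEquiv Y).hasSum_iff] at h1
  have h2 : ∀ y, HasSum (fun ω : {ω // Y ω = y} =>
      (P ω).toReal * (-Real.log (atom P Y ω).toReal)) (Real.negMulLog (P.map Y y).toReal) := by
    intro y
    have h3 : HasSum (fun ω : {ω // Y ω = y} => (P ω).toReal) (P.map Y y).toReal := by
      have h4 : P.map Y y = ∑' ω : {ω // Y ω = y}, P ω := by
        rw [PMF.map_apply]
        have : (fun ω => if y = Y ω then P ω else 0) = Set.indicator {ω | Y ω = y} (fun ω => P ω) := by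
          funext ω
          simp only [Set.indicator, Set.mem_ofPred_eq]
          by_cases hy : Y ω = y
          · simp [hy]
          · rw [if_neg hy, if_neg (fun h => hy h.symm)]
        rw [this]
        exact (tsum_subtype _ _).symm
      rw [h4, ENNReal.tsum_toReal_eq (fun ω => P.apply_ne_top _)]
      apply ENNReal.hasSum_toReal
      rw [← h4]
      exact PMF.apply_ne_top _ _
    have h5 := h3.mul_right (-Real.log (P.map Y y).toReal)
    unfold Real.negMulLog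
    rw [neg_mul, ← mul_neg]
    convert! h5 using 2 with ω
    unfold atom
    rw [ω.2]
  have h6 := h1.sigma (fun y => h2 y)
  unfold entropy
  rw [h6.tsum_eq]
  exact hs.hasSum

end


section
variable {Ω β β' β₁ β₂ : Type} (P : PMF Ω)

theorem pos_toReal {ω : Ω} (h : P ω ≠ 0) : 0 < (P ω).toReal :=
  ENNReal.toReal_pos h (P.apply_ne_top ω)

theorem atom_pos (Y : Ω → β) {ω : Ω} (h : P ω ≠ 0) : 0 < (atom P Y ω).toReal :=
  lt_of_lt_of_le (pos_toReal P h) (le_atom_toReal P Y ω)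

/-- If a finer variable has the same entropy, then it is a function of the coarser one. -/
theorem same_entropy (h : FiniteEntropy P) (Y : Ω → β) (Y' : Ω → β')
    (hYY : ∀ ω ω', Y' ω = Y' ω' → Y ω = Y ω')
    (heq : entropy (P.map Y) = entropy (P.map Y')) :
    (∀ ω, P ω ≠ 0 → atom P Y ω = atom P Y' ω) ∧
    (∀ ω ω', P ω ≠ 0 → P ω' ≠ 0 → Y ω = Y ω' → Y' ω = Y' ω') := by
  classical
  have hle : ∀ ω, atom P Y' ω ≤ atom P Y ω := by
    intro ω
    rw [atom_eq, atom_eq]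
    apply ENNReal.tsum_le_tsum
    intro ω'
    by_cases h1 : Y' ω = Y' ω'
    · rw [if_pos h1, if_pos (hYY _ _ h1)]
    · rw [if_neg h1]; exact zero_le
  have h1 := (hasSum_entropy_map P Y' h).sub (hasSum_entropy_map P Y h)
  rw [heq, sub_self] at h1
  have h2 : ∀ ω, 0 ≤ (P ω).toReal * (-Real.log (atom P Y' ω).toReal) -
      (P ω).toReal * (-Real.log (atom P Y ω).toReal) := by
    intro ω
    by_cases h0 : P ω = 0
    · simp [h0]
    · have h3 : Real.log (atom P Y' ω).toReal ≤ Real.log (atom P Y ω).toReal :=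
        Real.log_le_log (atom_pos P Y' h0) (ENNReal.toReal_mono (atom_ne_top P Y ω) (hle ω))
      have h4 := pos_toReal P h0
      nlinarith
  have h3 := (hasSum_zero_iff_of_nonneg h2).1 h1
  have key : ∀ ω, P ω ≠ 0 → atom P Y ω = atom P Y' ω := by
    intro ω h0
    have h4 := congrFun h3 ω
    simp only [Pi.zero_apply] at h4
    have h5 := pos_toReal P h0
    have h6 : Real.log (atom P Y ω).toReal = Real.log (atom P Y' ω).toReal := by
      have : (P ω).toReal * (Real.log (atom P Y ω).toReal - Real.log (atom P Y' ω).toReal) = 0 := by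
        linarith
      rcases mul_eq_zero.1 this with h7 | h7
      · exact absurd h7 h5.ne'
      · linarith
    have h7 := Real.log_injOn_pos (Set.mem_Ioi.2 (atom_pos P Y h0)) (Set.mem_Ioi.2 (atom_pos P Y' h0)) h6
    exact (ENNReal.toReal_eq_toReal_iff' (atom_ne_top P Y ω) (atom_ne_top P Y' ω)).1 h7
  refine ⟨key, ?_⟩
  intro ω ω' h0 h0' hY
  by_contra hne
  have h4 := key ω h0
  have h5 : atom P Y' ω + P ω' ≤ atom P Y ω := by
    rw [atom_eq, atom_eq]
    have h6 : P ω' = ∑' ω'', if ω'' = ω' then P ω'' else 0 := by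
      rw [tsum_ite_eq]
    rw [h6, ← ENNReal.tsum_add]
    apply ENNReal.tsum_le_tsum
    intro ω''
    by_cases h7 : Y' ω = Y' ω''
    · rw [if_pos h7, if_pos (hYY _ _ h7), if_neg, add_zero]
      rintro rfl
      exact hne h7
    · rw [if_neg h7, zero_add]
      by_cases h8 : ω'' = ω'
      · subst h8
        rw [if_pos rfl, if_pos hY]
      · rw [if_neg h8]; exact zero_le
  rw [h4] at h5
  have h6 : P ω' = 0 := by
    have := ENNReal.le_of_add_le_add_left (atom_ne_top P Y' ω) (h5.trans_eq (add_zero _).symm)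
    exact le_antisymm this (zero_le)
  exact h0' h6

/-- If the entropies add up, then the variables are independent; in particular the joint support
is a product. -/
theorem indep_of_entropy (h : FiniteEntropy P) (Y₁ : Ω → β₁) (Y₂ : Ω → β₂) (Y : Ω → β)
    (hY : ∀ ω ω', Y ω = Y ω' ↔ Y₁ ω = Y₁ ω' ∧ Y₂ ω = Y₂ ω')
    (heq : entropy (P.map Y) = entropy (P.map Y₁) + entropy (P.map Y₂)) :
    (∀ ω, P ω ≠ 0 → atom P Y ω = atom P Y₁ ω * atom P Y₂ ω) ∧
    (∀ ω₁ ω₂, P ω₁ ≠ 0 → P ω₂ ≠ 0 → ∃ ω, P ω ≠ 0 ∧ Y₁ ω = Y₁ ω₁ ∧ Y₂ ω = Y₂ ω₂) := by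
  classical
  set c := atom P Y with hc
  set c₁ := atom P Y₁ with hc₁
  set c₂ := atom P Y₂ with hc₂
  let G : Ω → Ω → ℝ≥0∞ := fun ω₁ ω₂ => ∑' ω, if Y₁ ω = Y₁ ω₁ ∧ Y₂ ω = Y₂ ω₂ then P ω / c ω else 0
  have hG1 : ∀ ω₁ ω₂, (∀ ω, P ω ≠ 0 → ¬ (Y₁ ω = Y₁ ω₁ ∧ Y₂ ω = Y₂ ω₂)) → G ω₁ ω₂ = 0 := by
    intro ω₁ ω₂ hno
    apply ENNReal.tsum_eq_zero.2
    intro ω
    by_cases h0 : P ω = 0
    · simp [h0]
    · rw [if_neg (hno ω h0)]
  have hG2 : ∀ ω₁ ω₂, G ω₁ ω₂ ≤ 1 := by
    intro ω₁ ω₂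
    by_cases hex : ∃ ω, P ω ≠ 0 ∧ (Y₁ ω = Y₁ ω₁ ∧ Y₂ ω = Y₂ ω₂)
    · obtain ⟨ω₀, h0, h1, h2⟩ := hex
      have h3 : G ω₁ ω₂ = ∑' ω, (if Y ω₀ = Y ω then P ω else 0) * (c ω₀)⁻¹ := by
        apply tsum_congr
        intro ω
        by_cases h4 : Y₁ ω = Y₁ ω₁ ∧ Y₂ ω = Y₂ ω₂
        · have h5 : Y ω₀ = Y ω := (hY _ _).2 ⟨h1.trans h4.1.symm, h2.trans h4.2.symm⟩
          have h6 : c ω = c ω₀ := by
            rw [hc]; unfold atom; rw [h5]
          rw [if_pos h4, if_pos h5, h6, div_eq_mul_inv]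
        · have h5 : ¬ Y ω₀ = Y ω := by
            intro h5
            obtain ⟨h6, h7⟩ := (hY _ _).1 h5
            exact h4 ⟨h6.symm.trans h1, h7.symm.trans h2⟩
          rw [if_neg h4, if_neg h5, zero_mul]
      rw [h3, ENNReal.tsum_mul_right, ← atom_eq, ← hc]
      exact ENNReal.mul_inv_le_one _
    · push Not at hex
      rw [hG1 ω₁ ω₂ (fun ω h0 h1 => hex ω h0 h1.1 h1.2)]
      exact zero_le
  let Et : ℝ≥0∞ := ∑' ω, P ω * (c₁ ω * c₂ ω / c ω)
  have hEt : Et = ∑' ω₁, ∑' ω₂, P ω₁ * P ω₂ * G ω₁ ω₂ := by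
    have h1 : ∀ ω, P ω * (c₁ ω * c₂ ω / c ω) = ∑' ω₁, ∑' ω₂,
        (if Y₁ ω = Y₁ ω₁ ∧ Y₂ ω = Y₂ ω₂ then P ω₁ * P ω₂ * (P ω / c ω) else 0) := by
      intro ω
      have h2 : P ω * (c₁ ω * c₂ ω / c ω) = c₁ ω * (c₂ ω * (P ω / c ω)) := by
        rw [div_eq_mul_inv, div_eq_mul_inv]; ring
      rw [h2, hc₁, atom_eq, ← ENNReal.tsum_mul_right]
      apply tsum_congr
      intro ω₁
      rw [hc₂, atom_eq, ← ENNReal.tsum_mul_right, ← ENNReal.tsum_mul_left]
      apply tsum_congr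
      intro ω₂
      by_cases h3 : Y₁ ω = Y₁ ω₁
      · by_cases h4 : Y₂ ω = Y₂ ω₂
        · simp only [h3, h4, and_self, if_true]
          rw [mul_assoc]
        · simp only [h4, and_false, if_false, zero_mul, mul_zero]
      · simp only [h3, false_and, if_false, zero_mul]
    show ∑' ω, P ω * (c₁ ω * c₂ ω / c ω) = _
    rw [tsum_congr h1, ENNReal.tsum_comm]
    apply tsum_congr
    intro ω₁
    rw [ENNReal.tsum_comm]
    apply tsum_congr
    intro ω₂
    rw [← ENNReal.tsum_mul_left]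
    apply tsum_congr
    intro ω
    by_cases h3 : Y₁ ω = Y₁ ω₁ ∧ Y₂ ω = Y₂ ω₂
    · rw [if_pos h3, if_pos h3]
    · rw [if_neg h3, if_neg h3, mul_zero]
  have hPP : ∑' ω₁, ∑' ω₂, P ω₁ * P ω₂ = 1 := by
    have : ∀ ω₁, ∑' ω₂, P ω₁ * P ω₂ = P ω₁ := by
      intro ω₁
      rw [ENNReal.tsum_mul_left, P.tsum_coe, mul_one]
    rw [tsum_congr this, P.tsum_coe]
  have hEt1 : Et ≤ 1 := by
    rw [hEt, ← hPP]
    apply ENNReal.tsum_le_tsum
    intro ω₁
    apply ENNReal.tsum_le_tsum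
    intro ω₂
    calc P ω₁ * P ω₂ * G ω₁ ω₂ ≤ P ω₁ * P ω₂ * 1 := by gcongr; exact hG2 _ _
      _ = _ := mul_one _
  have hEt2 : ∀ a b, G a b = 0 → Et + P a * P b ≤ 1 := by
    intro a b hab
    have h1 : P a * P b = ∑' ω₁, ∑' ω₂, if ω₁ = a ∧ ω₂ = b then P ω₁ * P ω₂ else 0 := by
      have h2 : ∀ ω₁, (∑' ω₂, if ω₁ = a ∧ ω₂ = b then P ω₁ * P ω₂ else 0) =
          if ω₁ = a then P ω₁ * P b else 0 := by
        intro ω₁
        by_cases h3 : ω₁ = a
        · have h4 : ∀ ω₂, (if ω₁ = a ∧ ω₂ = b then P ω₁ * P ω₂ else 0) =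
              if ω₂ = b then P ω₁ * P ω₂ else 0 := by
            intro ω₂
            by_cases h5 : ω₂ = b
            · rw [if_pos ⟨h3, h5⟩, if_pos h5]
            · rw [if_neg (fun h => h5 h.2), if_neg h5]
          rw [tsum_congr h4, tsum_ite_eq, if_pos h3]
        · rw [if_neg h3]
          apply ENNReal.tsum_eq_zero.2
          intro ω₂
          rw [if_neg (fun h => h3 h.1)]
      rw [tsum_congr h2, tsum_ite_eq]
    rw [hEt, h1, ← ENNReal.tsum_add, ← hPP]
    apply ENNReal.tsum_le_tsum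
    intro ω₁
    rw [← ENNReal.tsum_add]
    apply ENNReal.tsum_le_tsum
    intro ω₂
    by_cases h3 : ω₁ = a ∧ ω₂ = b
    · obtain ⟨rfl, rfl⟩ := h3
      rw [hab, mul_zero, zero_add, if_pos ⟨rfl, rfl⟩]
    · rw [if_neg h3, add_zero]
      calc P ω₁ * P ω₂ * G ω₁ ω₂ ≤ P ω₁ * P ω₂ * 1 := by gcongr; exact hG2 _ _
        _ = _ := mul_one _
  -- the real part
  have hs1 : HasSum (fun ω => (P ω).toReal * (Real.log (c₁ ω).toReal + Real.log (c₂ ω).toReal
      - Real.log (c ω).toReal)) 0 := by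
    have h1 := ((hasSum_entropy_map P Y h).sub (hasSum_entropy_map P Y₁ h)).sub
      (hasSum_entropy_map P Y₂ h)
    rw [heq] at h1
    have h2 : entropy (P.map Y₁) + entropy (P.map Y₂) - entropy (P.map Y₁) - entropy (P.map Y₂) = 0 := by
      ring
    rw [h2] at h1
    convert! h1 using 2 with ω
    rw [← hc, ← hc₁, ← hc₂]
    ring
  have hs2 : HasSum (fun ω => (P ω).toReal) 1 := by
    have h1 := ENNReal.hasSum_toReal (f := fun ω => P ω) (by rw [P.tsum_coe]; exact ENNReal.one_ne_top)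
    rw [← ENNReal.tsum_toReal_eq (fun ω => P.apply_ne_top _), P.tsum_coe] at h1
    simpa using h1
  have hEtop : Et ≠ ∞ := ne_top_of_le_ne_top ENNReal.one_ne_top hEt1
  have hs3 : HasSum (fun ω => (P ω * (c₁ ω * c₂ ω / c ω)).toReal) Et.toReal := by
    have h1 := ENNReal.hasSum_toReal (f := fun ω => P ω * (c₁ ω * c₂ ω / c ω)) hEtop
    rwa [← ENNReal.tsum_toReal_eq (fun ω => ENNReal.ne_top_of_tsum_ne_top hEtop ω)] at h1
  have hs4 := (hs3.sub hs2).sub hs1
  have hpos : ∀ ω, P ω ≠ 0 → 0 < (c ω).toReal ∧ 0 < (c₁ ω).toReal ∧ 0 < (c₂ ω).toReal := by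
    intro ω h0
    exact ⟨atom_pos P Y h0, atom_pos P Y₁ h0, atom_pos P Y₂ h0⟩
  have hterm : ∀ ω, (P ω * (c₁ ω * c₂ ω / c ω)).toReal - (P ω).toReal - (P ω).toReal *
      (Real.log (c₁ ω).toReal + Real.log (c₂ ω).toReal - Real.log (c ω).toReal) =
      (P ω).toReal * (((c₁ ω).toReal * (c₂ ω).toReal / (c ω).toReal) - 1 -
        (Real.log (c₁ ω).toReal + Real.log (c₂ ω).toReal - Real.log (c ω).toReal)) := by
    intro ω
    rw [ENNReal.toReal_mul, ENNReal.toReal_div, ENNReal.toReal_mul]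
    ring
  have hlog : ∀ ω, P ω ≠ 0 → Real.log (c₁ ω).toReal + Real.log (c₂ ω).toReal
      - Real.log (c ω).toReal = Real.log ((c₁ ω).toReal * (c₂ ω).toReal / (c ω).toReal) := by
    intro ω h0
    obtain ⟨h1, h2, h3⟩ := hpos ω h0
    rw [Real.log_div (mul_pos h2 h3).ne' h1.ne', Real.log_mul h2.ne' h3.ne']
  have hnn : ∀ ω, 0 ≤ (P ω * (c₁ ω * c₂ ω / c ω)).toReal - (P ω).toReal - (P ω).toReal *
      (Real.log (c₁ ω).toReal + Real.log (c₂ ω).toReal - Real.log (c ω).toReal) := by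
    intro ω
    rw [hterm]
    by_cases h0 : P ω = 0
    · simp [h0]
    · obtain ⟨h1, h2, h3⟩ := hpos ω h0
      apply mul_nonneg ENNReal.toReal_nonneg
      rw [hlog ω h0]
      have := Real.log_le_sub_one_of_pos (div_pos (mul_pos h2 h3) h1)
      linarith
  have hge : 0 ≤ Et.toReal - 1 - 0 := hs4.nonneg hnn
  have hEt1' : Et.toReal ≤ 1 := by
    have := ENNReal.toReal_mono ENNReal.one_ne_top hEt1
    simpa using this
  have hEteq : Et.toReal = 1 := by linarith
  have hEteq' : Et = 1 := by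
    rw [← ENNReal.toReal_eq_one_iff]; exact hEteq
  rw [hEteq] at hs4
  norm_num at hs4
  have hz := (hasSum_zero_iff_of_nonneg hnn).1 (by simpa using hs4)
  constructor
  · intro ω h0
    have h1 := congrFun hz ω
    simp only [Pi.zero_apply] at h1
    rw [hterm, hlog ω h0] at h1
    obtain ⟨h2, h3, h4⟩ := hpos ω h0
    have h5 := pos_toReal P h0
    rcases mul_eq_zero.1 h1 with h6 | h6
    · exact absurd h6 h5.ne'
    · by_cases h7 : (c₁ ω).toReal * (c₂ ω).toReal / (c ω).toReal = 1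
      · rw [div_eq_one_iff_eq h2.ne', ← ENNReal.toReal_mul] at h7
        have h8 := (ENNReal.toReal_eq_toReal_iff' (ENNReal.mul_ne_top (atom_ne_top P Y₁ ω)
          (atom_ne_top P Y₂ ω)) (atom_ne_top P Y ω)).1 h7
        exact h8.symm
      · have := Real.log_lt_sub_one_of_pos (div_pos (mul_pos h3 h4) h2) h7
        linarith
  · intro ω₁ ω₂ h1 h2
    by_contra hno
    push Not at hno
    have h3 := hEt2 ω₁ ω₂ (hG1 ω₁ ω₂ (fun ω h0 h4 => hno ω h0 h4.1 h4.2))
    rw [hEteq'] at h3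
    have h4 : P ω₁ * P ω₂ = 0 := by
      have := ENNReal.le_of_add_le_add_left ENNReal.one_ne_top (h3.trans_eq (add_zero _).symm)
      exact le_antisymm this (zero_le)
    rcases mul_eq_zero.1 h4 with h5 | h5
    · exact h1 h5
    · exact h2 h5

end

end PChar823
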