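import Pool.Agent.PChar823.Neg

set_option autoImplicit false


namespace PChar823

open scoped ENNReal

theorem entropy_uniform {Ω β : Type} [Fintype Ω] (P0 : PMF Ω) (N : ℕ) (hN : N ≠ 0)
    (hP0 : ∀ ω, P0 ω = (N : ℝ≥0∞)⁻¹) (Y : Ω → β) (S : Ω → Finset Ω)
    (hS : ∀ ω ω', Y ω = Y ω' ↔ ω' ∈ S ω) (r : ℕ) (hr : ∀ ω, (S ω).card * 15 ^ r = N) :
    entropy (P0.map Y) = Real.log 15 * r := by
  classical
  have hfin : FiniteEntropy P0 := (hasSum_fintype _).summable
  have h1 := hasSum_entropy_map P0 Y hfin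
  have hat : ∀ ω, (atom P0 Y ω).toReal = ((15 : ℝ) ^ r)⁻¹ := by
    intro ω
    rw [atom_eq, tsum_fintype]
    have h2 : ∀ ω' : Ω, (if Y ω = Y ω' then P0 ω' else 0) =
        if ω' ∈ S ω then (N : ℝ≥0∞)⁻¹ else 0 := by
      intro ω'
      by_cases h5 : Y ω = Y ω'
      · rw [if_pos h5, if_pos ((hS ω ω').1 h5), hP0]
      · rw [if_neg h5, if_neg (fun h6 => h5 ((hS ω ω').2 h6))]
    rw [Finset.sum_congr rfl (fun ω' _ => h2 ω'), Finset.sum_ite_mem, Finset.univ_inter,
      Finset.sum_const, nsmul_eq_mul, ENNReal.toReal_mul, ENNReal.toReal_inv,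
      ENNReal.toReal_natCast, ENNReal.toReal_natCast]
    have h6 := hr ω
    have h7 : ((S ω).card : ℝ) * 15 ^ r = N := by exact_mod_cast h6
    have h8 : (15 : ℝ) ^ r ≠ 0 := by positivity
    have h11 : (N : ℝ) ≠ 0 := by exact_mod_cast hN
    rw [← h7]
    have h10 : ((S ω).card : ℝ) ≠ 0 := by
      intro h
      rw [h, zero_mul] at h7
      exact h11 h7.symm
    field_simp
  have h2 : HasSum (fun ω => (P0 ω).toReal * (-Real.log (atom P0 Y ω).toReal))
      (1 * (Real.log 15 * r)) := by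
    have h3 : (fun ω => (P0 ω).toReal * (-Real.log (atom P0 Y ω).toReal)) =
        fun ω => (P0 ω).toReal * (Real.log 15 * r) := by
      funext ω
      rw [hat ω, Real.log_inv, Real.log_pow]
      ring
    rw [h3]
    exact (hasSum_toReal P0).mul_right _
  have h3 := h2.unique h1
  rw [one_mul] at h3
  exact h3.symm

theorem pos_gen {Ω : Type} [Fintype Ω] [DecidableEq Ω] [Nonempty Ω] (X : Fin 9 → Ω → ZMod 15)
    (M : Matroid (Fin 9)) (r : Finset (Fin 9) → ℕ)
    (hr : ∀ A : Finset (Fin 9), M.eRk (A : Set (Fin 9)) = r A)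
    (hc : ∀ A ω, (fib X A ω).card * 15 ^ (r A) = Fintype.card Ω) : (15 : ℤ) ∈ pCharSet M := by
  classical
  refine ⟨by norm_num, fun _ => ZMod 15, (PMF.uniformOfFintype Ω).map (fun ω i => X i ω), ?_, ?_⟩
  · exact (hasSum_fintype _).summable
  · intro A
    obtain ⟨B, rfl⟩ : ∃ B : Finset (Fin 9), (B : Set (Fin 9)) = A := ⟨A.toFinset, by simp⟩
    show Real.log ((15 : ℤ) : ℝ) * ((M.eRk (B : Set (Fin 9))).toNat : ℝ) = _
    rw [hr B, PMF.map_comp, ENat.toNat_natCast,
      entropy_uniform (PMF.uniformOfFintype Ω) (Fintype.card Ω) Fintype.card_ne_zero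
        (fun ω => PMF.uniformOfFintype_apply ω) _ (fun ω => fib X B ω) ?_ (r B) (hc B)]
    · norm_cast
    · intro ω ω'
      rw [mem_fib]
      constructor
      · intro h f hf
        exact (congrFun h ⟨f, hf⟩).symm
      · intro h
        funext i
        exact (h i.1 i.2).symm

theorem card_Om : Fintype.card Om = 15 ^ 5 := by
  have hcardZ : Fintype.card (ZMod 15) = 15 := ZMod.card 15
  simp only [Om, Fintype.card_prod, Fintype.card_pi, hcardZ, Finset.prod_const, Finset.card_univ,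
    Fintype.card_fin]
  norm_num

theorem pos_part (M : Matroid (Fin 9)) (r : Finset (Fin 9) → ℕ)
    (hr : ∀ A : Finset (Fin 9), M.eRk (A : Set (Fin 9)) = r A)
    (hc : ∀ A ω, (fib XX A ω).card * 15 ^ (r A) = 15 ^ 5) : (15 : ℤ) ∈ pCharSet M := by
  have : Nonempty Om := ⟨(fun _ => 0, 0)⟩
  apply pos_gen XX M r hr
  intro A ω
  rw [card_Om]
  exact hc A ω

theorem main : ∃ M : Matroid (Fin 9), M.E = Set.univ ∧ M.eRank = 5 ∧
    (15 : ℤ) ∈ pCharSet M ∧ (15 : ℤ) ∉ pCharSet M✶ := by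
  classical
  obtain ⟨M, r, hE, hr, hc, hrep⟩ := exists_model
  have hrank : M.eRank = 5 := by
    have h1 := hr Finset.univ
    rw [Finset.coe_univ, ← hE, Matroid.eRk_ground] at h1
    rw [h1, hrep Finset.univ 511 (by norm_num) (by decide +kernel)]
    have : rkN 511 = 5 := by decide +kernel
    rw [this]
    norm_cast
  refine ⟨M, hE, hrank, pos_part M r hr hc, ?_⟩
  rintro ⟨-, α, P, hP, hA⟩
  apply neg α P hP (fun A => (M✶.eRk (A : Set (Fin 9))).toNat)
  · intro A
    have := hA (A : Set (Fin 9))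
    simp only at this
    rw [← this]
    norm_cast
  · intro A n hn hrepn
    have h1 := M.eRk_dual_add_eRank (A : Set (Fin 9)) (by rw [hE]; exact Set.subset_univ _)
    rw [hrank, hE, ← Set.compl_eq_univ_sdiff, ← Finset.coe_compl, hr Aᶜ, Set.encard_coe_eq_coe_finsetCard,
      hrep Aᶜ n hn hrepn] at h1
    have h2 : M✶.eRk (A : Set (Fin 9)) ≠ ⊤ := by
      intro h
      rw [h] at h1
      have h3 : ((rkN n : ℕ∞) + (A.card : ℕ∞)) = ((rkN n + A.card : ℕ) : ℕ∞) := by norm_cast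
      rw [h3, top_add] at h1
      exact ENat.natCast_ne_top _ h1.symm
    obtain ⟨k, hk⟩ := ENat.ne_top_iff_exists.1 h2
    show (M✶.eRk (A : Set (Fin 9))).toNat + 5 = rkN n + A.card
    rw [← hk] at h1 ⊢
    rw [ENat.toNat_natCast]
    exact_mod_cast h1

end PChar823
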