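import Mathlib

set_option autoImplicit false


namespace PChar823

open Function

theorem exists_hom (G : Type) [Group G] [Finite G] (h : Nat.card G = 15) :
    ∃ q : G →* Multiplicative (ZMod 3), Function.Surjective q := by
  classical
  haveI : Fact (Nat.Prime 5) := ⟨by norm_num⟩
  let P : Sylow 5 G := default
  have hcard : Nat.card P = 5 := by
    rw [P.card_eq_multiplicity, h]
    have : (15 : ℕ).factorization 5 = 1 := by
      rw [show (15 : ℕ) = 3 * 5 by norm_num, Nat.factorization_mul (by norm_num) (by norm_num)]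
      simp [Nat.Prime.factorization_self (show Nat.Prime 5 by norm_num),
        Nat.factorization_eq_zero_of_not_dvd (show ¬ 5 ∣ 3 by norm_num)]
    rw [this, pow_one]
  have hindex : (P : Subgroup G).index = 3 := by
    have h1 := (P : Subgroup G).card_mul_index
    rw [h] at h1
    have h2 : Nat.card (P : Subgroup G) = 5 := hcard
    rw [h2] at h1
    omega
  have h1 : Nat.card (Sylow 5 G) ∣ 3 := by
    rw [← hindex]; exact P.card_dvd_index
  have h2 : Nat.card (Sylow 5 G) ≡ 1 [MOD 5] := card_sylow_modEq_one 5 G
  have h3 : Nat.card (Sylow 5 G) = 1 := by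
    rcases (Nat.dvd_prime (by norm_num : Nat.Prime 3)).1 h1 with h3 | h3
    · exact h3
    · rw [h3] at h2
      exact absurd h2 (by decide)
  haveI : Subsingleton (Sylow 5 G) := by
    rw [Nat.card_eq_one_iff_unique] at h3
    exact h3.1
  haveI hN : (P : Subgroup G).Normal := P.normal_of_subsingleton
  have hq : Nat.card (G ⧸ (P : Subgroup G)) = 3 := hindex
  haveI : Fact (Nat.Prime 3) := ⟨by norm_num⟩
  haveI : IsCyclic (G ⧸ (P : Subgroup G)) := isCyclic_of_prime_card hq
  let e : Multiplicative (ZMod (Nat.card (G ⧸ (P : Subgroup G)))) ≃* G ⧸ (P : Subgroup G) :=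
    zmodCyclicMulEquiv inferInstance
  have e' : G ⧸ (P : Subgroup G) ≃* Multiplicative (ZMod 3) := by
    rw [hq] at e
    exact e.symm
  refine ⟨e'.toMonoidHom.comp (QuotientGroup.mk' _), ?_⟩
  exact e'.surjective.comp (QuotientGroup.mk'_surjective _)

end PChar823
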