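import Pool.Agent.PChar823.G15

set_option autoImplicit false


namespace PChar823

open Function

/-- The group of the autotopisms of `h` fixing the values. -/
def Aut2 {Z : Type} (h : Z → Z → Z) : Subgroup (Equiv.Perm Z × Equiv.Perm Z) where
  carrier := {p | ∀ x w, h (p.1 x) (p.2 w) = h x w}
  mul_mem' := by
    intro a b ha hb x w
    simp only [Set.mem_ofPred_eq] at ha hb
    simp only [Prod.fst_mul, Prod.snd_mul, Equiv.Perm.mul_apply]
    rw [ha, hb]
  one_mem' := by intro x w; rfl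
  inv_mem' := by
    intro a ha x w
    simp only [Set.mem_ofPred_eq] at ha
    have := ha (a.1.symm x) (a.2.symm w)
    rw [Equiv.apply_symm_apply, Equiv.apply_symm_apply] at this
    exact this.symm

theorem labels {Z : Type} [Fintype Z] [DecidableEq Z] (hZ : Fintype.card Z = 15)
    (f g h m : Z → Z → Z)
    (hf1 : ∀ y, Injective fun x => f x y) (hf2 : ∀ x, Injective (f x))
    (hg2 : ∀ y, Injective (g y))
    (hh1 : ∀ w, Injective fun x => h x w) (hh2 : ∀ x, Injective (h x))
    (H : ∀ x y w, m (f x y) (g y w) = h x w) :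
    ∃ A B C εf εg : Z → ZMod 3, (∀ s, (Finset.univ.filter (fun z => A z = s)).card = 5) ∧
      (∀ s, (Finset.univ.filter (fun z => C z = s)).card = 5) ∧
      (∀ x y, εf (f x y) = A x + B y) ∧ (∀ y w, εg (g y w) = B y + C w) ∧
      (∀ x w x1 w1, h x w = h x1 w1 → A x - C w = A x1 - C w1) := by
  classical
  haveI : Nonempty Z := by
    rw [← Fintype.card_pos_iff, hZ]; norm_num
  obtain ⟨z0⟩ := ‹Nonempty Z›
  -- bijections
  have bij : ∀ k : Z → Z, Injective k → Bijective k := fun k hk => Finite.injective_iff_bijective.1 hk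
  let F1 : Z → Equiv.Perm Z := fun y => Equiv.ofBijective (fun x => f x y) (bij _ (hf1 y))
  let G2 : Z → Equiv.Perm Z := fun y => Equiv.ofBijective (g y) (bij _ (hg2 y))
  have hF1 : ∀ y x, F1 y x = f x y := fun y x => rfl
  have hG2 : ∀ y w, G2 y w = g y w := fun y w => rfl
  let Γ := Aut2 h
  let η0 : Z → Equiv.Perm Z × Equiv.Perm Z := fun y => ((F1 y).trans (F1 z0).symm, (G2 y).trans (G2 z0).symm)
  have hη0 : ∀ y, η0 y ∈ Γ := by
    intro y x w
    have h1 : f ((η0 y).1 x) z0 = f x y := by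
      show f ((F1 z0).symm (F1 y x)) z0 = F1 y x
      rw [← hF1 z0, Equiv.apply_symm_apply]
    have h2 : g z0 ((η0 y).2 w) = g y w := by
      show g z0 ((G2 z0).symm (G2 y w)) = G2 y w
      rw [← hG2 z0, Equiv.apply_symm_apply]
    rw [← H _ z0 _, h1, h2, H]
  let η : Z → Γ := fun y => ⟨η0 y, hη0 y⟩
  -- semiregularity
  have semi1 : ∀ p : Γ, ∀ x, p.1.1 x = x → p = 1 := by
    intro p x hx
    have h1 : ∀ w, p.1.2 w = w := by
      intro w
      apply hh2 x
      have := p.2 x w
      rwa [hx] at this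
    have h2 : ∀ x', p.1.1 x' = x' := by
      intro x'
      apply hh1 z0
      have := p.2 x' z0
      rwa [h1] at this
    apply Subtype.ext
    apply Prod.ext
    · exact Equiv.ext h2
    · exact Equiv.ext h1
  have semi2 : ∀ p : Γ, ∀ w, p.1.2 w = w → p = 1 := by
    intro p w hw
    apply semi1 p z0
    apply hh1 w
    have := p.2 z0 w
    rwa [hw] at this
  let ev1 : Γ → Z := fun p => p.1.1 z0
  let ev2 : Γ → Z := fun p => p.1.2 z0
  have ev1_inj : Injective ev1 := by
    intro p p' hpp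
    have : p'⁻¹ * p = 1 := by
      apply semi1 _ z0
      show (p'⁻¹ * p).1.1 z0 = z0
      have h1 : (p'⁻¹ * p).1.1 z0 = p'.1.1⁻¹ (p.1.1 z0) := rfl
      rw [h1, Equiv.Perm.inv_eq_iff_eq]
      exact hpp
    exact (inv_mul_eq_one.1 this).symm
  have ev2_inj : Injective ev2 := by
    intro p p' hpp
    have : p'⁻¹ * p = 1 := by
      apply semi2 _ z0
      have h1 : (p'⁻¹ * p).1.2 z0 = p'.1.2⁻¹ (p.1.2 z0) := rfl
      rw [h1, Equiv.Perm.inv_eq_iff_eq]
      exact hpp
    exact (inv_mul_eq_one.1 this).symm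
  have ev1_surj : Surjective ev1 := by
    intro x
    obtain ⟨y, hy⟩ := (bij _ (hf2 z0)).2 (f x z0)
    refine ⟨η y, ?_⟩
    show (F1 z0).symm (F1 y z0) = x
    rw [Equiv.symm_apply_eq, hF1, hF1]
    exact hy
  let γe : Γ ≃ Z := Equiv.ofBijective ev1 ⟨ev1_inj, ev1_surj⟩
  haveI : Finite Γ := Finite.of_equiv Z γe.symm
  haveI : Fintype Γ := Fintype.ofFinite Γ
  have hcard : Fintype.card Γ = 15 := by rw [Fintype.card_congr γe, hZ]
  have ev2_bij : Bijective ev2 := by
    rw [Fintype.bijective_iff_injective_and_card]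
    exact ⟨ev2_inj, by rw [hcard, hZ]⟩
  let τe : Γ ≃ Z := Equiv.ofBijective ev2 ev2_bij
  obtain ⟨q, hq⟩ := exists_hom Γ (by rw [Nat.card_eq_fintype_card, hcard])
  let γ : Z → Γ := fun x => γe.symm x
  let τ : Z → Γ := fun w => τe.symm w
  have hγ : ∀ x, (γ x).1.1 z0 = x := fun x => γe.apply_symm_apply x
  have hτ : ∀ w, (τ w).1.2 z0 = w := fun w => τe.apply_symm_apply w
  have hγu : ∀ (p : Γ) x, p.1.1 z0 = x → γ x = p := by
    intro p x hp
    rw [← hp]; exact γe.symm_apply_apply p
  have hτu : ∀ (p : Γ) x, p.1.2 z0 = x → τ x = p := by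
    intro p x hp
    rw [← hp]; exact τe.symm_apply_apply p
  let Q : Γ → ZMod 3 := fun p => Multiplicative.toAdd (q p)
  have Qmul : ∀ p p', Q (p * p') = Q p + Q p' := by
    intro p p'; simp [Q]
  have Qinv : ∀ p, Q p⁻¹ = - Q p := by
    intro p; simp [Q]
  -- fibres
  have Qfib : ∀ s, (Finset.univ.filter (fun p => Q p = s)).card = 5 := by
    have h1 : ∀ s, (Finset.univ.filter (fun p => Q p = s)).card
        = (Finset.univ.filter (fun p => Q p = 0)).card := by
      intro s
      obtain ⟨p0, hp0⟩ := hq (Multiplicative.ofAdd s)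
      have hp0' : Q p0 = s := by simp [Q, hp0]
      symm
      apply Finset.card_bij (fun p _ => p * p0)
      · intro p hp
        simp only [Finset.mem_filter, Finset.mem_univ, true_and] at hp ⊢
        rw [Qmul, hp, hp0', zero_add]
      · intro p _ p' _ hpp
        exact mul_right_cancel hpp
      · intro p hp
        simp only [Finset.mem_filter, Finset.mem_univ, true_and] at hp
        refine ⟨p * p0⁻¹, ?_, ?_⟩
        · simp only [Finset.mem_filter, Finset.mem_univ, true_and]
          rw [Qmul, Qinv, hp, hp0', add_neg_cancel]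
        · simp
    have h2 : (Finset.univ : Finset Γ).card = ∑ s : ZMod 3, (Finset.univ.filter (fun p => Q p = s)).card := by
      apply Finset.card_eq_sum_card_fiberwise
      intro p _
      simp
    rw [Finset.card_univ, hcard, Finset.sum_congr rfl (fun s _ => h1 s), Finset.sum_const,
      Finset.card_univ, ZMod.card, smul_eq_mul] at h2
    intro s
    rw [h1 s]
    omega
  have fibA : ∀ (e : Γ ≃ Z) s, (Finset.univ.filter (fun z => Q (e.symm z) = s)).card = 5 := by
    intro e s
    rw [← Qfib s]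
    symm
    apply Finset.card_bij (fun p _ => e p)
    · intro p hp
      simpa using hp
    · intro p _ p' _ hpp
      exact e.injective hpp
    · intro z hz
      exact ⟨e.symm z, by simpa using hz, by simp⟩
  refine ⟨fun x => Q (γ x), fun y => Q (η y), fun w => Q (τ w), fun e => Q (γ ((F1 z0).symm e)),
    fun e => Q (τ ((G2 z0).symm e)), fibA γe, fibA τe, ?_, ?_, ?_⟩
  · intro x y
    have h1 : γ ((F1 z0).symm (f x y)) = η y * γ x := by
      apply hγu
      have : (η y * γ x).1.1 z0 = (F1 z0).symm (F1 y ((γ x).1.1 z0)) := rfl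
      rw [this, hγ, hF1]
    show Q (γ ((F1 z0).symm (f x y))) = _
    rw [h1, Qmul, add_comm]
  · intro y w
    have h1 : τ ((G2 z0).symm (g y w)) = η y * τ w := by
      apply hτu
      have : (η y * τ w).1.2 z0 = (G2 z0).symm (G2 y ((τ w).1.2 z0)) := rfl
      rw [this, hτ, hG2]
    show Q (τ ((G2 z0).symm (g y w))) = _
    rw [h1, Qmul]
  · intro x w x1 w1 hxw
    have key : ∀ x w, h (((τ w)⁻¹ * γ x).1.1 z0) z0 = h x w := by
      intro x w
      have h1 := ((τ w)⁻¹).2 ((γ x).1.1 z0) ((τ w).1.2 z0)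
      have h2 : ((τ w)⁻¹).1.2 ((τ w).1.2 z0) = z0 := by
        show (τ w).1.2⁻¹ ((τ w).1.2 z0) = z0
        simp
      rw [h2, hγ, hτ] at h1
      have h3 : ((τ w)⁻¹ * γ x).1.1 z0 = ((τ w)⁻¹).1.1 ((γ x).1.1 z0) := rfl
      rw [h3, hγ]
      exact h1
    have h1 : ((τ w)⁻¹ * γ x).1.1 z0 = ((τ w1)⁻¹ * γ x1).1.1 z0 := by
      apply hh1 z0
      show h _ z0 = h _ z0
      rw [key, key, hxw]
    have h2 : (τ w)⁻¹ * γ x = (τ w1)⁻¹ * γ x1 := ev1_inj h1
    have h3 := congrArg Q h2
    rw [Qmul, Qmul, Qinv, Qinv] at h3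
    show Q (γ x) - Q (τ w) = Q (γ x1) - Q (τ w1)
    linear_combination h3

end PChar823
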