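import Mathlib

set_option autoImplicit false


namespace PChar823

section general
variable {E Ω Z : Type} [Fintype E] [DecidableEq E] [Fintype Ω] [DecidableEq Ω] [Nonempty Ω]
  [Fintype Z] [DecidableEq Z] (X : E → Ω → Z)

/-- The variables in `A` determine the variable `e`. -/
def Det (A : Finset E) (e : E) : Prop := ∀ ω ω', (∀ f ∈ A, X f ω = X f ω') → X e ω = X e ω'

/-- There are moves which fix the variables in `A` and run through all values of the variable `e`. -/
def Free (A : Finset E) (e : E) : Prop := ∃ τ : Z → Equiv.Perm Ω,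
  (∀ s ω, ∀ f ∈ A, X f (τ s ω) = X f ω) ∧ ∀ ω, Function.Injective fun s => X e (τ s ω)

/-- The fibre of the variables in `A`. -/
def fib (A : Finset E) (ω : Ω) : Finset Ω := Finset.univ.filter fun ω' => ∀ f ∈ A, X f ω' = X f ω

theorem mem_fib (A : Finset E) (ω ω' : Ω) : ω' ∈ fib X A ω ↔ ∀ f ∈ A, X f ω' = X f ω := by
  simp [fib]

theorem det_fib {A : Finset E} {e : E} (h : Det X A e) (ω : Ω) :
    fib X (insert e A) ω = fib X A ω := by
  ext ω'
  rw [mem_fib, mem_fib]
  constructor
  · intro h1 f hf
    exact h1 f (Finset.mem_insert_of_mem hf)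
  · intro h1 f hf
    rcases Finset.mem_insert.1 hf with rfl | hf
    · exact h _ _ h1
    · exact h1 f hf

theorem free_fib {A : Finset E} {e : E} (h : Free X A e) (ω : Ω) :
    (fib X (insert e A) ω).card * Fintype.card Z = (fib X A ω).card := by
  obtain ⟨τ, h1, h2⟩ := h
  have h3 : ∀ s, (Finset.filter (fun ω' => X e (τ s ω') = X e ω) (fib X A ω)).card
      = (fib X (insert e A) ω).card := by
    intro s
    apply Finset.card_bij (fun ω' _ => τ s ω')
    · intro ω' hω'
      rw [Finset.mem_filter, mem_fib] at hω'
      rw [mem_fib]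
      intro f hf
      rcases Finset.mem_insert.1 hf with rfl | hf
      · exact hω'.2
      · rw [h1 s ω' f hf]; exact hω'.1 f hf
    · intro a _ b _ hab
      exact (τ s).injective hab
    · intro b hb
      rw [mem_fib] at hb
      refine ⟨(τ s).symm b, ?_, (τ s).apply_symm_apply b⟩
      rw [Finset.mem_filter, mem_fib]
      constructor
      · intro f hf
        rw [← h1 s ((τ s).symm b) f hf, (τ s).apply_symm_apply]
        exact hb f (Finset.mem_insert_of_mem hf)
      · rw [(τ s).apply_symm_apply]
        exact hb e (Finset.mem_insert_self e A)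
  have h4 : ∀ ω', (Finset.filter (fun s => X e (τ s ω') = X e ω) Finset.univ).card = 1 := by
    intro ω'
    obtain ⟨s, hs⟩ := (Finite.injective_iff_bijective.1 (h2 ω')).2 (X e ω)
    rw [Finset.card_eq_one]
    refine ⟨s, ?_⟩
    ext s'
    simp only [Finset.mem_filter, Finset.mem_univ, true_and, Finset.mem_singleton]
    constructor
    · intro h5
      exact h2 ω' (h5.trans hs.symm)
    · rintro rfl
      exact hs
  have h5 : ∑ s : Z, (Finset.filter (fun ω' => X e (τ s ω') = X e ω) (fib X A ω)).card =
      ∑ ω' ∈ fib X A ω, (Finset.filter (fun s => X e (τ s ω') = X e ω) Finset.univ).card := by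
    simp_rw [Finset.card_filter]
    exact Finset.sum_comm
  rw [Finset.sum_congr rfl (fun s _ => h3 s), Finset.sum_congr rfl (fun ω' _ => h4 ω'),
    Finset.sum_const, Finset.sum_const, Finset.card_univ, smul_eq_mul, smul_eq_mul, mul_one] at h5
  rw [mul_comm]
  exact h5

theorem exists_rank (hv : 1 < Fintype.card Z) (hD : ∀ A e, Det X A e ∨ Free X A e) :
    ∃ r : Finset E → ℕ, (∀ A ω, (fib X A ω).card * Fintype.card Z ^ (r A) = Fintype.card Ω) ∧
      r ∅ = 0 ∧ (∀ A e, Det X A e → r (insert e A) = r A) ∧
      (∀ A e, Free X A e → r (insert e A) = r A + 1) := by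
  have h1 : ∀ A : Finset E, ∃ k, ∀ ω, (fib X A ω).card * Fintype.card Z ^ k = Fintype.card Ω := by
    intro A
    induction A using Finset.induction_on with
    | empty =>
      refine ⟨0, fun ω => ?_⟩
      simp [fib]
    | insert e A _ ih =>
      obtain ⟨k, hk⟩ := ih
      rcases hD A e with h | h
      · exact ⟨k, fun ω => by rw [det_fib X h]; exact hk ω⟩
      · refine ⟨k + 1, fun ω => ?_⟩
        rw [pow_succ, mul_comm (Fintype.card Z ^ k), ← mul_assoc, free_fib X h]
        exact hk ω
  choose r hr using h1
  have uniq : ∀ (c k k' : ℕ), 0 < c → c * Fintype.card Z ^ k = c * Fintype.card Z ^ k' → k = k' := by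
    intro c k k' hc h
    exact Nat.pow_right_injective hv (Nat.eq_of_mul_eq_mul_left hc h)
  obtain ⟨ω₀⟩ := ‹Nonempty Ω›
  have pos : ∀ A, 0 < (fib X A ω₀).card := by
    intro A
    rw [Finset.card_pos]
    exact ⟨ω₀, by rw [mem_fib]; intro f _; rfl⟩
  refine ⟨r, hr, ?_, ?_, ?_⟩
  · apply uniq (fib X ∅ ω₀).card _ _ (pos _)
    rw [hr ∅ ω₀]
    simp [fib]
  · intro A e h
    apply uniq (fib X A ω₀).card _ _ (pos _)
    rw [hr A ω₀, ← det_fib X h, hr]
  · intro A e h
    apply uniq (fib X (insert e A) ω₀).card _ _ (pos _)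
    rw [hr (insert e A) ω₀, pow_succ, mul_comm (Fintype.card Z ^ r A), ← mul_assoc, free_fib X h, hr]

theorem Det.mono {A B : Finset E} {e : E} (h : Det X A e) (hAB : A ⊆ B) : Det X B e :=
  fun ω ω' h1 => h ω ω' fun f hf => h1 f (hAB hf)

/-- The matroid of a family of variables in which every variable is determined by or free over any
set of variables. -/
theorem exists_matroid (hD : ∀ A e, Det X A e ∨ Free X A e) (r : Finset E → ℕ) (r0 : r ∅ = 0)
    (rdet : ∀ A e, Det X A e → r (insert e A) = r A)
    (rfree : ∀ A e, Free X A e → r (insert e A) = r A + 1) :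
    ∃ M : Matroid E, M.E = Set.univ ∧ ∀ A : Finset E, M.eRk (A : Set E) = r A := by
  have r1 : ∀ A e, r A ≤ r (insert e A) ∧ r (insert e A) ≤ r A + 1 := by
    intro A e
    rcases hD A e with h | h
    · rw [rdet A e h]; omega
    · rw [rfree A e h]; omega
  have r2 : ∀ A C : Finset E, r A ≤ r (A ∪ C) ∧ r (A ∪ C) ≤ r A + C.card := by
    intro A C
    induction C using Finset.induction_on with
    | empty => simp
    | insert e C he ih =>
      rw [Finset.union_insert, Finset.card_insert_of_notMem he]
      have := r1 (A ∪ C) e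
      omega
  have rmono : ∀ A B : Finset E, A ⊆ B → r A ≤ r B := by
    intro A B h
    have := (r2 A B).1
    rwa [Finset.union_eq_right.2 h] at this
  have rcard : ∀ A : Finset E, r A ≤ A.card := by
    intro A
    have := (r2 ∅ A).2
    rwa [Finset.empty_union, r0, zero_add] at this
  have rdets : ∀ A C : Finset E, (∀ e ∈ C, Det X A e) → r (A ∪ C) = r A := by
    intro A C
    induction C using Finset.induction_on with
    | empty => simp
    | insert e C he ih =>
      intro h
      rw [Finset.union_insert, rdet _ _ (Det.mono X (h e (Finset.mem_insert_self e C))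
        Finset.subset_union_left)]
      exact ih fun f hf => h f (Finset.mem_insert_of_mem hf)
  have isub : ∀ ⦃I J : Finset E⦄, r J = J.card → I ⊆ J → r I = I.card := by
    intro I J hJ hIJ
    have h1 := (r2 I (J \ I)).2
    rw [Finset.union_sdiff_of_subset hIJ, hJ, Finset.card_sdiff_of_subset hIJ] at h1
    have h2 := Finset.card_le_card hIJ
    have h3 := rcard I
    omega
  have iaug : ∀ ⦃I J : Finset E⦄, r I = I.card → r J = J.card → I.card < J.card →
      ∃ e ∈ J, e ∉ I ∧ r (insert e I) = (insert e I).card := by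
    intro I J hI hJ hIJ
    by_contra hno
    push Not at hno
    have h1 : ∀ e ∈ J, Det X I e := by
      intro e he
      by_cases heI : e ∈ I
      · intro ω ω' h; exact h e heI
      · rcases hD I e with h | h
        · exact h
        · exfalso
          apply hno e he heI
          rw [rfree _ _ h, Finset.card_insert_of_notMem heI, hI]
    have h2 := rdets I J h1
    have h3 := rmono J (I ∪ J) Finset.subset_union_right
    omega
  let IM : IndepMatroid E := IndepMatroid.ofFinset Set.univ (fun I => r I = I.card)
    (by simp [r0]) isub iaug (fun I _ => Set.subset_univ _)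
  have hindep : ∀ I : Finset E, IM.matroid.Indep (I : Set E) ↔ r I = I.card := by
    intro I
    rw [IndepMatroid.matroid_indep_iff]
    exact IndepMatroid.ofFinset_indep _ _ _ _ _ _
  refine ⟨IM.matroid, rfl, ?_⟩
  intro A
  apply le_antisymm
  · rw [Matroid.eRk_le_iff]
    intro I hIA hI
    have hfin : I.Finite := Set.toFinite I
    obtain ⟨I', rfl⟩ : ∃ I' : Finset E, (I' : Set E) = I := ⟨hfin.toFinset, hfin.coe_toFinset⟩
    rw [hindep] at hI
    rw [Set.encard_coe_eq_coe_finsetCard, ← hI]
    exact_mod_cast rmono I' A (Finset.coe_subset.1 hIA)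
  · rw [Matroid.le_eRk_iff]
    have h1 : ∀ A : Finset E, ∃ I : Finset E, I ⊆ A ∧ r I = I.card ∧ I.card = r A := by
      intro A
      induction A using Finset.induction_on with
      | empty => exact ⟨∅, subset_rfl, by simp [r0], by simp [r0]⟩
      | insert e A he ih =>
        obtain ⟨I, hI1, hI2, hI3⟩ := ih
        rcases hD A e with h | h
        · exact ⟨I, hI1.trans (Finset.subset_insert e A), hI2, by rw [rdet A e h]; exact hI3⟩
        · have heI : e ∉ I := fun h' => he (hI1 h')
          rcases hD I e with h' | h'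
          · have h2 := rdet A e (Det.mono X h' hI1)
            have h3 := rfree A e h
            omega
          · refine ⟨insert e I, Finset.insert_subset_insert e hI1, ?_, ?_⟩
            · rw [rfree I e h', Finset.card_insert_of_notMem heI, hI2]
            · rw [rfree A e h, Finset.card_insert_of_notMem heI, hI3]
    obtain ⟨I, hI1, hI2, hI3⟩ := h1 A
    refine ⟨I, Finset.coe_subset.2 hI1, (hindep I).2 hI2, ?_⟩
    rw [Set.encard_coe_eq_coe_finsetCard, hI3]

end general

end PChar823
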