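import Pool.Agent.PChar823.Mat

set_option autoImplicit false


namespace PChar823

/-! ### The model: a `(15,4;1)` difference matrix -/

/-- The rows of a `(15,4;1)` difference matrix over `ℤ/15`. -/
def mu : Fin 4 → ZMod 15 → ZMod 15 := ![
  ![0, 0, 0, 0, 0, 0, 0, 0, 0, 0, 0, 0, 0, 0, 0],
  ![0, 1, 2, 3, 4, 5, 6, 7, 8, 9, 10, 11, 12, 13, 14],
  ![0, 2, 12, 9, 7, 3, 8, 1, 13, 6, 14, 4, 11, 5, 10],
  ![0, 14, 1, 4, 13, 10, 9, 3, 12, 11, 7, 2, 5, 8, 6]]

theorem mu_inj : ∀ i j : Fin 4, i ≠ j → Function.Injective (fun a => mu i a - mu j a) := by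
  decide +kernel

abbrev Om := (Fin 4 → ZMod 15) × ZMod 15

/-- The nine variables. -/
def XX (e : Fin 9) (ω : Om) : ZMod 15 :=
  ![ω.1 0 - ω.1 1, ω.1 1 - ω.1 2, ω.1 2 - ω.1 3, ω.1 3 - ω.1 0,
    ω.1 0 - mu 0 ω.2, ω.1 1 - mu 1 ω.2, ω.1 2 - mu 2 ω.2, ω.1 3 - mu 3 ω.2, ω.2] e

theorem mu_inj' {i j : Fin 4} (hij : i ≠ j) {a b : ZMod 15} (h : mu i a - mu j a = mu i b - mu j b) :
    a = b := mu_inj i j hij h

def agree (n : ℕ) (ω ω' : Om) : Prop := ∀ e : Fin 9, n.testBit e = true → XX e ω = XX e ω'

def rules : List (ℕ × ℕ) := [(14, 1), (13, 2), (11, 4), (7, 8), (49, 256), (98, 256), (196, 256), (152, 256), (83, 256), (166, 256), (92, 256), (169, 256), (304, 1), (273, 32), (289, 16), (352, 2), (290, 64), (322, 32), (448, 4), (324, 128), (388, 64), (400, 8), (392, 16), (280, 128)]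

theorem rule0 (ω ω' : Om) (h : agree 14 ω ω') : agree 1 ω ω' := by
  have h1 := h 1 (by decide)
  have h2 := h 2 (by decide)
  have h3 := h 3 (by decide)
  have key : XX 0 ω = XX 0 ω' := by
    simp only [XX, Matrix.cons_val] at *
    linear_combination - h1 - h2 - h3
  intro f hf
  have : f = 0 := by revert f; decide
  rw [this]; exact key

theorem rule1 (ω ω' : Om) (h : agree 13 ω ω') : agree 2 ω ω' := by
  have h0 := h 0 (by decide)
  have h2 := h 2 (by decide)
  have h3 := h 3 (by decide)
  have key : XX 1 ω = XX 1 ω' := by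
    simp only [XX, Matrix.cons_val] at *
    linear_combination - h0 - h2 - h3
  intro f hf
  have : f = 1 := by revert f; decide
  rw [this]; exact key

theorem rule2 (ω ω' : Om) (h : agree 11 ω ω') : agree 4 ω ω' := by
  have h0 := h 0 (by decide)
  have h1 := h 1 (by decide)
  have h3 := h 3 (by decide)
  have key : XX 2 ω = XX 2 ω' := by
    simp only [XX, Matrix.cons_val] at *
    linear_combination - h0 - h1 - h3
  intro f hf
  have : f = 2 := by revert f; decide
  rw [this]; exact key

theorem rule3 (ω ω' : Om) (h : agree 7 ω ω') : agree 8 ω ω' := by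
  have h0 := h 0 (by decide)
  have h1 := h 1 (by decide)
  have h2 := h 2 (by decide)
  have key : XX 3 ω = XX 3 ω' := by
    simp only [XX, Matrix.cons_val] at *
    linear_combination - h0 - h1 - h2
  intro f hf
  have : f = 3 := by revert f; decide
  rw [this]; exact key

theorem rule4 (ω ω' : Om) (h : agree 49 ω ω') : agree 256 ω ω' := by
  have h0 := h 0 (by decide)
  have h4 := h 4 (by decide)
  have h5 := h 5 (by decide)
  have key : XX 8 ω = XX 8 ω' := by
    simp only [XX, Matrix.cons_val] at *
    apply mu_inj' (i := 1) (j := 0) (by decide)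
    linear_combination h4 - h0 - h5
  intro f hf
  have : f = 8 := by revert f; decide
  rw [this]; exact key

theorem rule5 (ω ω' : Om) (h : agree 98 ω ω') : agree 256 ω ω' := by
  have h1 := h 1 (by decide)
  have h5 := h 5 (by decide)
  have h6 := h 6 (by decide)
  have key : XX 8 ω = XX 8 ω' := by
    simp only [XX, Matrix.cons_val] at *
    apply mu_inj' (i := 2) (j := 1) (by decide)
    linear_combination h5 - h1 - h6
  intro f hf
  have : f = 8 := by revert f; decide
  rw [this]; exact key

theorem rule6 (ω ω' : Om) (h : agree 196 ω ω') : agree 256 ω ω' := by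
  have h2 := h 2 (by decide)
  have h6 := h 6 (by decide)
  have h7 := h 7 (by decide)
  have key : XX 8 ω = XX 8 ω' := by
    simp only [XX, Matrix.cons_val] at *
    apply mu_inj' (i := 3) (j := 2) (by decide)
    linear_combination h6 - h2 - h7
  intro f hf
  have : f = 8 := by revert f; decide
  rw [this]; exact key

theorem rule7 (ω ω' : Om) (h : agree 152 ω ω') : agree 256 ω ω' := by
  have h3 := h 3 (by decide)
  have h4 := h 4 (by decide)
  have h7 := h 7 (by decide)
  have key : XX 8 ω = XX 8 ω' := by
    simp only [XX, Matrix.cons_val] at *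
    apply mu_inj' (i := 0) (j := 3) (by decide)
    linear_combination h7 - h3 - h4
  intro f hf
  have : f = 8 := by revert f; decide
  rw [this]; exact key

theorem rule8 (ω ω' : Om) (h : agree 83 ω ω') : agree 256 ω ω' := by
  have h0 := h 0 (by decide)
  have h1 := h 1 (by decide)
  have h4 := h 4 (by decide)
  have h6 := h 6 (by decide)
  have key : XX 8 ω = XX 8 ω' := by
    simp only [XX, Matrix.cons_val] at *
    apply mu_inj' (i := 2) (j := 0) (by decide)
    linear_combination h4 - h0 - h1 - h6
  intro f hf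
  have : f = 8 := by revert f; decide
  rw [this]; exact key

theorem rule9 (ω ω' : Om) (h : agree 166 ω ω') : agree 256 ω ω' := by
  have h1 := h 1 (by decide)
  have h2 := h 2 (by decide)
  have h5 := h 5 (by decide)
  have h7 := h 7 (by decide)
  have key : XX 8 ω = XX 8 ω' := by
    simp only [XX, Matrix.cons_val] at *
    apply mu_inj' (i := 3) (j := 1) (by decide)
    linear_combination h5 - h1 - h2 - h7
  intro f hf
  have : f = 8 := by revert f; decide
  rw [this]; exact key

theorem rule10 (ω ω' : Om) (h : agree 92 ω ω') : agree 256 ω ω' := by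
  have h2 := h 2 (by decide)
  have h3 := h 3 (by decide)
  have h4 := h 4 (by decide)
  have h6 := h 6 (by decide)
  have key : XX 8 ω = XX 8 ω' := by
    simp only [XX, Matrix.cons_val] at *
    apply mu_inj' (i := 0) (j := 2) (by decide)
    linear_combination h6 - h2 - h3 - h4
  intro f hf
  have : f = 8 := by revert f; decide
  rw [this]; exact key

theorem rule11 (ω ω' : Om) (h : agree 169 ω ω') : agree 256 ω ω' := by
  have h0 := h 0 (by decide)
  have h3 := h 3 (by decide)
  have h5 := h 5 (by decide)
  have h7 := h 7 (by decide)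
  have key : XX 8 ω = XX 8 ω' := by
    simp only [XX, Matrix.cons_val] at *
    apply mu_inj' (i := 1) (j := 3) (by decide)
    linear_combination h7 - h3 - h0 - h5
  intro f hf
  have : f = 8 := by revert f; decide
  rw [this]; exact key

theorem rule12 (ω ω' : Om) (h : agree 304 ω ω') : agree 1 ω ω' := by
  have h4 := h 4 (by decide)
  have h5 := h 5 (by decide)
  have h8 := h 8 (by decide)
  have key : XX 0 ω = XX 0 ω' := by
    simp only [XX, Matrix.cons_val] at *
    rw [h8] at h4 h5
    linear_combination h4 - h5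
  intro f hf
  have : f = 0 := by revert f; decide
  rw [this]; exact key

theorem rule13 (ω ω' : Om) (h : agree 273 ω ω') : agree 32 ω ω' := by
  have h0 := h 0 (by decide)
  have h4 := h 4 (by decide)
  have h8 := h 8 (by decide)
  have key : XX 5 ω = XX 5 ω' := by
    simp only [XX, Matrix.cons_val] at *
    rw [h8] at h4 ⊢
    linear_combination h4 - h0
  intro f hf
  have : f = 5 := by revert f; decide
  rw [this]; exact key

theorem rule14 (ω ω' : Om) (h : agree 289 ω ω') : agree 16 ω ω' := by
  have h0 := h 0 (by decide)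
  have h5 := h 5 (by decide)
  have h8 := h 8 (by decide)
  have key : XX 4 ω = XX 4 ω' := by
    simp only [XX, Matrix.cons_val] at *
    rw [h8] at h5 ⊢
    linear_combination h5 + h0
  intro f hf
  have : f = 4 := by revert f; decide
  rw [this]; exact key

theorem rule15 (ω ω' : Om) (h : agree 352 ω ω') : agree 2 ω ω' := by
  have h5 := h 5 (by decide)
  have h6 := h 6 (by decide)
  have h8 := h 8 (by decide)
  have key : XX 1 ω = XX 1 ω' := by
    simp only [XX, Matrix.cons_val] at *
    rw [h8] at h5 h6
    linear_combination h5 - h6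
  intro f hf
  have : f = 1 := by revert f; decide
  rw [this]; exact key

theorem rule16 (ω ω' : Om) (h : agree 290 ω ω') : agree 64 ω ω' := by
  have h1 := h 1 (by decide)
  have h5 := h 5 (by decide)
  have h8 := h 8 (by decide)
  have key : XX 6 ω = XX 6 ω' := by
    simp only [XX, Matrix.cons_val] at *
    rw [h8] at h5 ⊢
    linear_combination h5 - h1
  intro f hf
  have : f = 6 := by revert f; decide
  rw [this]; exact key

theorem rule17 (ω ω' : Om) (h : agree 322 ω ω') : agree 32 ω ω' := by
  have h1 := h 1 (by decide)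
  have h6 := h 6 (by decide)
  have h8 := h 8 (by decide)
  have key : XX 5 ω = XX 5 ω' := by
    simp only [XX, Matrix.cons_val] at *
    rw [h8] at h6 ⊢
    linear_combination h6 + h1
  intro f hf
  have : f = 5 := by revert f; decide
  rw [this]; exact key

theorem rule18 (ω ω' : Om) (h : agree 448 ω ω') : agree 4 ω ω' := by
  have h6 := h 6 (by decide)
  have h7 := h 7 (by decide)
  have h8 := h 8 (by decide)
  have key : XX 2 ω = XX 2 ω' := by
    simp only [XX, Matrix.cons_val] at *
    rw [h8] at h6 h7
    linear_combination h6 - h7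
  intro f hf
  have : f = 2 := by revert f; decide
  rw [this]; exact key

theorem rule19 (ω ω' : Om) (h : agree 324 ω ω') : agree 128 ω ω' := by
  have h2 := h 2 (by decide)
  have h6 := h 6 (by decide)
  have h8 := h 8 (by decide)
  have key : XX 7 ω = XX 7 ω' := by
    simp only [XX, Matrix.cons_val] at *
    rw [h8] at h6 ⊢
    linear_combination h6 - h2
  intro f hf
  have : f = 7 := by revert f; decide
  rw [this]; exact key

theorem rule20 (ω ω' : Om) (h : agree 388 ω ω') : agree 64 ω ω' := by
  have h2 := h 2 (by decide)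
  have h7 := h 7 (by decide)
  have h8 := h 8 (by decide)
  have key : XX 6 ω = XX 6 ω' := by
    simp only [XX, Matrix.cons_val] at *
    rw [h8] at h7 ⊢
    linear_combination h7 + h2
  intro f hf
  have : f = 6 := by revert f; decide
  rw [this]; exact key

theorem rule21 (ω ω' : Om) (h : agree 400 ω ω') : agree 8 ω ω' := by
  have h4 := h 4 (by decide)
  have h7 := h 7 (by decide)
  have h8 := h 8 (by decide)
  have key : XX 3 ω = XX 3 ω' := by
    simp only [XX, Matrix.cons_val] at *
    rw [h8] at h7 h4
    linear_combination h7 - h4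
  intro f hf
  have : f = 3 := by revert f; decide
  rw [this]; exact key

theorem rule22 (ω ω' : Om) (h : agree 392 ω ω') : agree 16 ω ω' := by
  have h3 := h 3 (by decide)
  have h7 := h 7 (by decide)
  have h8 := h 8 (by decide)
  have key : XX 4 ω = XX 4 ω' := by
    simp only [XX, Matrix.cons_val] at *
    rw [h8] at h7 ⊢
    linear_combination h7 - h3
  intro f hf
  have : f = 4 := by revert f; decide
  rw [this]; exact key

theorem rule23 (ω ω' : Om) (h : agree 280 ω ω') : agree 128 ω ω' := by
  have h3 := h 3 (by decide)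
  have h4 := h 4 (by decide)
  have h8 := h 8 (by decide)
  have key : XX 7 ω = XX 7 ω' := by
    simp only [XX, Matrix.cons_val] at *
    rw [h8] at h4 ⊢
    linear_combination h4 + h3
  intro f hf
  have : f = 7 := by revert f; decide
  rw [this]; exact key

theorem rules_sound : ∀ r ∈ rules, ∀ ω ω' : Om, agree r.1 ω ω' → agree r.2 ω ω' := by
  intro r hr ω ω' h
  simp only [rules, List.mem_cons, List.not_mem_nil, or_false] at hr
  rcases hr with rfl | rfl | rfl | rfl | rfl | rfl | rfl | rfl | rfl | rfl | rfl | rfl | rfl | rfl | rfl | rfl | rfl | rfl | rfl | rfl | rfl | rfl | rfl | rfl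
  · exact rule0 ω ω' h
  · exact rule1 ω ω' h
  · exact rule2 ω ω' h
  · exact rule3 ω ω' h
  · exact rule4 ω ω' h
  · exact rule5 ω ω' h
  · exact rule6 ω ω' h
  · exact rule7 ω ω' h
  · exact rule8 ω ω' h
  · exact rule9 ω ω' h
  · exact rule10 ω ω' h
  · exact rule11 ω ω' h
  · exact rule12 ω ω' h
  · exact rule13 ω ω' h
  · exact rule14 ω ω' h
  · exact rule15 ω ω' h
  · exact rule16 ω ω' h
  · exact rule17 ω ω' h
  · exact rule18 ω ω' h
  · exact rule19 ω ω' h
  · exact rule20 ω ω' h
  · exact rule21 ω ω' h
  · exact rule22 ω ω' h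
  · exact rule23 ω ω' h

theorem agree_foldl (l : List (ℕ × ℕ)) (hl : ∀ r ∈ l, ∀ ω ω' : Om, agree r.1 ω ω' → agree r.2 ω ω') :
    ∀ (n : ℕ) (ω ω' : Om), agree n ω ω' →
      agree (l.foldl (fun n r => if n &&& r.1 = r.1 then n ||| r.2 else n) n) ω ω' := by
  induction l with
  | nil => intro n ω ω' h; exact h
  | cons r l ih =>
    intro n ω ω' h
    rw [List.foldl_cons]
    apply ih (fun r' hr' => hl r' (List.mem_cons_of_mem r hr'))
    split_ifs with hc
    · have h1 : agree r.1 ω ω' := by
        intro e he
        apply h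
        rw [← hc, Nat.testBit_and] at he
        simp only [Bool.and_eq_true] at he
        exact he.1
      have h2 := hl r (List.mem_cons_self) ω ω' h1
      intro e he
      rw [Nat.testBit_or, Bool.or_eq_true] at he
      rcases he with he | he
      · exact h e he
      · exact h2 e he
    · exact h

def stepR (n : ℕ) : ℕ := rules.foldl (fun n r => if n &&& r.1 = r.1 then n ||| r.2 else n) n

def clR (n : ℕ) : ℕ := stepR (stepR n)

theorem agree_step (n : ℕ) (ω ω' : Om) (h : agree n ω ω') : agree (stepR n) ω ω' := by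
  unfold stepR
  exact agree_foldl rules rules_sound n ω ω' h

theorem agree_cl (n : ℕ) (ω ω' : Om) (h : agree n ω ω') : agree (clR n) ω ω' := by
  unfold clR
  exact agree_step _ _ _ (agree_step _ _ _ h)

/-- The variables changed by a shift of the `u i` with `W i`. -/
def chW (W : Fin 4 → Bool) (e : Fin 9) : Bool :=
  ![W 0 != W 1, W 1 != W 2, W 2 != W 3, W 3 != W 0, W 0, W 1, W 2, W 3, false] e

def shW (W : Fin 4 → Bool) (s : ZMod 15) : Equiv.Perm Om where
  toFun ω := (fun i => ω.1 i + if W i then s else 0, ω.2)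
  invFun ω := (fun i => ω.1 i - if W i then s else 0, ω.2)
  left_inv ω := by
    apply Prod.ext
    · funext i; simp
    · rfl
  right_inv ω := by
    apply Prod.ext
    · funext i; simp
    · rfl

theorem shW_fix (W : Fin 4 → Bool) (e : Fin 9) (h : chW W e = false) (s : ZMod 15) (ω : Om) :
    XX e (shW W s ω) = XX e ω := by
  fin_cases e <;> simp [chW] at h <;> simp [XX, shW, h]

theorem shW_inj (W : Fin 4 → Bool) (e : Fin 9) (h : chW W e = true) (ω : Om) :
    Function.Injective fun s => XX e (shW W s ω) := by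
  intro s s' hs
  have key : ∀ i k : Fin 4, (W i != W k) = true →
      (ω.1 i + if W i then s else 0) - (ω.1 k + if W k then s else 0) =
      (ω.1 i + if W i then s' else 0) - (ω.1 k + if W k then s' else 0) → s = s' := by
    intro i k h1 h2
    cases h3 : W i <;> cases h4 : W k <;> rw [h3, h4] at h1 h2
    · exact absurd h1 (by decide)
    · simp only [Bool.false_eq_true, if_false, if_true] at h2
      linear_combination -h2
    · simp only [Bool.false_eq_true, if_false, if_true] at h2
      linear_combination h2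
    · exact absurd h1 (by decide)
  have key2 : ∀ (i : Fin 4) (c : ZMod 15), W i = true → (ω.1 i + if W i then s else 0) - c =
      (ω.1 i + if W i then s' else 0) - c → s = s' := by
    intro i c h1 h2
    rw [if_pos h1, if_pos h1] at h2
    linear_combination h2
  fin_cases e
  · exact key 0 1 h hs
  · exact key 1 2 h hs
  · exact key 2 3 h hs
  · exact key 3 0 h hs
  · exact key2 0 _ h hs
  · exact key2 1 _ h hs
  · exact key2 2 _ h hs
  · exact key2 3 _ h hs
  · simp [chW] at h

/-- The variables changed by a shift of `a`, compensated at `u i` by the row `j i`. -/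
def chJ (j : Fin 4 → Fin 4) (e : Fin 9) : Bool :=
  ![j 0 != j 1, j 1 != j 2, j 2 != j 3, j 3 != j 0, j 0 != 0, j 1 != 1, j 2 != 2, j 3 != 3, true] e

def shJ (j : Fin 4 → Fin 4) (s : ZMod 15) : Equiv.Perm Om where
  toFun ω := (fun i => ω.1 i + (mu (j i) (ω.2 + s) - mu (j i) ω.2), ω.2 + s)
  invFun ω := (fun i => ω.1 i - (mu (j i) ω.2 - mu (j i) (ω.2 - s)), ω.2 - s)
  left_inv ω := by
    apply Prod.ext
    · funext i; simp
    · simp
  right_inv ω := by
    apply Prod.ext
    · funext i; simp
    · simp

theorem shJ_fix (j : Fin 4 → Fin 4) (e : Fin 9) (h : chJ j e = false) (s : ZMod 15) (ω : Om) :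
    XX e (shJ j s ω) = XX e ω := by
  have key : ∀ i k : Fin 4, (j i != j k) = false →
      (ω.1 i + (mu (j i) (ω.2 + s) - mu (j i) ω.2)) - (ω.1 k + (mu (j k) (ω.2 + s) - mu (j k) ω.2)) =
      ω.1 i - ω.1 k := by
    intro i k h1
    have h2 : j i = j k := by simpa using h1
    rw [h2]; ring
  have key2 : ∀ i : Fin 4, (j i != i) = false →
      (ω.1 i + (mu (j i) (ω.2 + s) - mu (j i) ω.2)) - mu i (ω.2 + s) = ω.1 i - mu i ω.2 := by
    intro i h1
    have h2 : j i = i := by simpa using h1
    rw [h2]; ring
  fin_cases e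
  · exact key 0 1 h
  · exact key 1 2 h
  · exact key 2 3 h
  · exact key 3 0 h
  · exact key2 0 h
  · exact key2 1 h
  · exact key2 2 h
  · exact key2 3 h
  · simp [chJ] at h

theorem shJ_inj (j : Fin 4 → Fin 4) (e : Fin 9) (h : chJ j e = true) (ω : Om) :
    Function.Injective fun s => XX e (shJ j s ω) := by
  intro s s' hs
  have key : ∀ i k : Fin 4, i ≠ k → mu i (ω.2 + s) - mu k (ω.2 + s) =
      mu i (ω.2 + s') - mu k (ω.2 + s') → s = s' := by
    intro i k hik h
    exact add_left_cancel (mu_inj' hik h)
  fin_cases e <;> simp only [chJ, Fin.reduceFinMk, Matrix.cons_val, bne_iff_ne, ne_eq,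
    Fin.zero_eta, Fin.isValue, Fin.mk_one] at h <;>
    simp only [XX, shJ, Fin.reduceFinMk, Matrix.cons_val, Equiv.coe_fn_mk, Fin.zero_eta, Fin.isValue,
      Fin.mk_one] at hs
  · exact key _ _ h (by linear_combination hs)
  · exact key _ _ h (by linear_combination hs)
  · exact key _ _ h (by linear_combination hs)
  · exact key _ _ h (by linear_combination hs)
  · exact key _ _ h (by linear_combination hs)
  · exact key _ _ h (by linear_combination hs)
  · exact key _ _ h (by linear_combination hs)
  · exact key _ _ h (by linear_combination hs)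
  · exact add_left_cancel hs

def Rep (n : ℕ) (A : Finset (Fin 9)) : Prop := ∀ e : Fin 9, n.testBit e = decide (e ∈ A)

def cocs : List ℕ := [480, 464, 457, 453, 451, 432, 426, 425, 422, 421, 410, 406, 403, 395, 391, 368, 364, 362, 361, 348, 346, 341, 339, 333, 331, 316, 310, 309, 302, 301, 286, 279, 271, 240, 233, 211, 202, 182, 149, 140, 124, 101, 70, 58, 35, 25]

theorem cocs_ok : ∀ D ∈ cocs, (∃ W : Fin 4 → Bool, ∀ e : Fin 9, D.testBit e = chW W e) ∨
    (∃ j : Fin 4 → Fin 4, ∀ e : Fin 9, D.testBit e = chJ j e) := by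
  intro D hD
  simp only [cocs, List.mem_cons, List.not_mem_nil, or_false] at hD
  rcases hD with rfl | rfl | rfl | rfl | rfl | rfl | rfl | rfl | rfl | rfl | rfl | rfl | rfl | rfl | rfl | rfl | rfl | rfl | rfl | rfl | rfl | rfl | rfl | rfl | rfl | rfl | rfl | rfl | rfl | rfl | rfl | rfl | rfl | rfl | rfl | rfl | rfl | rfl | rfl | rfl | rfl | rfl | rfl | rfl | rfl | rfl
  · exact Or.inr ⟨![0, 0, 0, 0], by decide⟩
  · exact Or.inr ⟨![1, 1, 1, 1], by decide⟩
  · exact Or.inr ⟨![0, 1, 1, 1], by decide⟩
  · exact Or.inr ⟨![0, 1, 1, 0], by decide⟩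
  · exact Or.inr ⟨![0, 1, 0, 0], by decide⟩
  · exact Or.inr ⟨![2, 2, 2, 2], by decide⟩
  · exact Or.inr ⟨![0, 0, 2, 2], by decide⟩
  · exact Or.inr ⟨![0, 2, 2, 2], by decide⟩
  · exact Or.inr ⟨![0, 0, 2, 0], by decide⟩
  · exact Or.inr ⟨![0, 2, 2, 0], by decide⟩
  · exact Or.inr ⟨![1, 1, 2, 2], by decide⟩
  · exact Or.inr ⟨![1, 1, 2, 1], by decide⟩
  · exact Or.inr ⟨![2, 1, 2, 2], by decide⟩
  · exact Or.inr ⟨![0, 1, 2, 2], by decide⟩
  · exact Or.inr ⟨![0, 1, 2, 0], by decide⟩
  · exact Or.inr ⟨![3, 3, 3, 3], by decide⟩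
  · exact Or.inr ⟨![0, 0, 0, 3], by decide⟩
  · exact Or.inr ⟨![0, 0, 3, 3], by decide⟩
  · exact Or.inr ⟨![0, 3, 3, 3], by decide⟩
  · exact Or.inr ⟨![1, 1, 1, 3], by decide⟩
  · exact Or.inr ⟨![1, 1, 3, 3], by decide⟩
  · exact Or.inr ⟨![3, 1, 1, 3], by decide⟩
  · exact Or.inr ⟨![3, 1, 3, 3], by decide⟩
  · exact Or.inr ⟨![0, 1, 1, 3], by decide⟩
  · exact Or.inr ⟨![0, 1, 3, 3], by decide⟩
  · exact Or.inr ⟨![2, 2, 2, 3], by decide⟩
  · exact Or.inr ⟨![3, 3, 2, 3], by decide⟩
  · exact Or.inr ⟨![3, 2, 2, 3], by decide⟩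
  · exact Or.inr ⟨![0, 0, 2, 3], by decide⟩
  · exact Or.inr ⟨![0, 2, 2, 3], by decide⟩
  · exact Or.inr ⟨![1, 1, 2, 3], by decide⟩
  · exact Or.inr ⟨![3, 1, 2, 3], by decide⟩
  · exact Or.inr ⟨![0, 1, 2, 3], by decide⟩
  · exact Or.inl ⟨![true, true, true, true], by decide⟩
  · exact Or.inl ⟨![false, true, true, true], by decide⟩
  · exact Or.inl ⟨![true, false, true, true], by decide⟩
  · exact Or.inl ⟨![false, false, true, true], by decide⟩
  · exact Or.inl ⟨![true, true, false, true], by decide⟩
  · exact Or.inl ⟨![true, false, false, true], by decide⟩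
  · exact Or.inl ⟨![false, false, false, true], by decide⟩
  · exact Or.inl ⟨![true, true, true, false], by decide⟩
  · exact Or.inl ⟨![false, true, true, false], by decide⟩
  · exact Or.inl ⟨![false, false, true, false], by decide⟩
  · exact Or.inl ⟨![true, true, false, false], by decide⟩
  · exact Or.inl ⟨![false, true, false, false], by decide⟩
  · exact Or.inl ⟨![true, false, false, false], by decide⟩

/-- The rank function, as a table of octal digits. -/
def rkN (n : ℕ) : ℕ := (1721651733515023277557218045520545949472909788689866846467263135394671744443360544953684094507431358585841114773431177457149792451505617392314778827494389586791602287362394867271965513700323330121506576519752912008893879593167479282774995521870773642111913558003527721871820720154512066503657737854090135270532359130512419580682423061188445775591019203708420137242234143545874007945643712990855358898052091788597504035891109041850494988942436997021064698014536776 >>> (3 * n)) % 8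

def chk (n : ℕ) : Bool :=
  let c := clR n
  (List.range 9).all fun e => if c.testBit e then rkN (n ||| 2 ^ e) == rkN n else
    (rkN (n ||| 2 ^ e) == rkN n + 1) && cocs.any fun D => D.testBit e && (D &&& n) == 0

theorem chk_all : ∀ n < 512, chk n = true := by
  decide +kernel

end PChar823
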