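import Pool.Agent.PChar823.Ent
import Pool.Agent.PChar823.Code
import Pool.Agent.PChar823.Dich

set_option autoImplicit false


namespace PChar823

open scoped ENNReal

instance (n : ℕ) (A : Finset (Fin 9)) : Decidable (Rep n A) := by
  unfold Rep; infer_instance

section
variable {Ω β : Type} (P : PMF Ω)

theorem atom_congr {β' : Type} (Y : Ω → β) (Y' : Ω → β') (ω : Ω)
    (h : ∀ ω', Y ω = Y ω' ↔ Y' ω = Y' ω') : atom P Y ω = atom P Y' ω := by
  classical
  rw [atom_eq, atom_eq]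
  apply tsum_congr
  intro ω'
  by_cases h1 : Y ω = Y ω'
  · rw [if_pos h1, if_pos ((h ω').1 h1)]
  · rw [if_neg h1, if_neg (fun h2 => h1 ((h ω').2 h2))]

theorem hasSum_toReal : HasSum (fun ω => (P ω).toReal) 1 := by
  have h1 := ENNReal.hasSum_toReal (f := fun ω => P ω) (by rw [P.tsum_coe]; exact ENNReal.one_ne_top)
  rw [← ENNReal.tsum_toReal_eq (fun ω => P.apply_ne_top _), P.tsum_coe] at h1
  simpa using h1

/-- If all atoms have the same probability, then it is given by the entropy. -/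
theorem const_atom (hP : FiniteEntropy P) (Y : Ω → β) (κ : ℝ≥0∞)
    (h : ∀ ω, P ω ≠ 0 → atom P Y ω = κ) (hent : entropy (P.map Y) = Real.log 15) : κ = 15⁻¹ := by
  have h1 := hasSum_entropy_map P Y hP
  have h2 : (fun ω => (P ω).toReal * (-Real.log (atom P Y ω).toReal)) =
      fun ω => (P ω).toReal * (-Real.log κ.toReal) := by
    funext ω
    by_cases h0 : P ω = 0
    · simp [h0]
    · rw [h ω h0]
  rw [h2] at h1
  have h3 := (hasSum_toReal P).mul_right (-Real.log κ.toReal)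
  have h4 := h1.unique h3
  rw [hent, one_mul] at h4
  obtain ⟨ω₀, hω₀⟩ := P.support_nonempty
  have h0 : P ω₀ ≠ 0 := hω₀
  have hκ := h ω₀ h0
  have hpos : 0 < κ.toReal := by rw [← hκ]; exact atom_pos P Y h0
  have htop : κ ≠ ∞ := by rw [← hκ]; exact atom_ne_top P Y ω₀
  have h5 : Real.log κ.toReal = Real.log (15⁻¹ : ℝ) := by
    rw [Real.log_inv]; linarith
  have h6 := Real.log_injOn_pos (Set.mem_Ioi.2 hpos) (Set.mem_Ioi.2 (by norm_num)) h5
  rw [← ENNReal.toReal_eq_toReal_iff' htop (by simp), h6]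
  simp

end

theorem neg (α : Fin 9 → Type) (P : PMF (∀ i, α i)) (hP : FiniteEntropy P)
    (R : Finset (Fin 9) → ℕ)
    (hent : ∀ A : Finset (Fin 9), entropy (P.map (fun x (i : (A : Set (Fin 9))) => x i)) =
      Real.log 15 * R A)
    (hR : ∀ A : Finset (Fin 9), ∀ n < 512, Rep n Aᶜ → R A + 5 = rkN n + A.card) : False := by
  classical
  have val : ∀ (A : Finset (Fin 9)) (n k : ℕ), n < 512 ∧ Rep n Aᶜ ∧ rkN n + A.card = k + 5 → R A = k := by
    rintro A n k ⟨h1, h2, h3⟩
    have := hR A n h1 h2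
    omega
  let res : ∀ A : Finset (Fin 9), (∀ i, α i) → (∀ i : (A : Set (Fin 9)), α i) := fun A x i => x i
  have hres : ∀ A x y, res A x = res A y ↔ ∀ i ∈ A, x i = y i := by
    intro A x y
    constructor
    · intro h i hi
      exact congrFun h ⟨i, hi⟩
    · intro h
      funext i
      exact h i.1 i.2
  -- determination
  have F1 : ∀ A B : Finset (Fin 9), A ⊆ B → R A = R B →
      (∀ x, P x ≠ 0 → atom P (res A) x = atom P (res B) x) ∧
      (∀ x y, P x ≠ 0 → P y ≠ 0 → (∀ i ∈ A, x i = y i) → ∀ i ∈ B, x i = y i) := by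
    intro A B hAB hRAB
    obtain ⟨h1, h2⟩ := same_entropy P hP (res A) (res B) (fun x y h => by
      rw [hres] at h ⊢
      exact fun i hi => h i (hAB hi)) (by
        show entropy (P.map (fun x (i : (A : Set (Fin 9))) => x i)) = _
        rw [hent A, hRAB]
        exact (hent B).symm)
    refine ⟨h1, ?_⟩
    intro x y hx hy h
    rw [← hres]
    exact h2 x y hx hy ((hres A x y).2 h)
  -- independence
  have F2 : ∀ A B : Finset (Fin 9), R (A ∪ B) = R A + R B →
      (∀ x, P x ≠ 0 → atom P (res (A ∪ B)) x = atom P (res A) x * atom P (res B) x) ∧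
      (∀ x y, P x ≠ 0 → P y ≠ 0 → ∃ z, P z ≠ 0 ∧ (∀ i ∈ A, z i = x i) ∧ (∀ i ∈ B, z i = y i)) := by
    intro A B hRAB
    obtain ⟨h1, h2⟩ := indep_of_entropy P hP (res A) (res B) (res (A ∪ B)) (fun x y => by
      rw [hres, hres, hres]
      constructor
      · intro h
        exact ⟨fun i hi => h i (Finset.mem_union_left _ hi), fun i hi => h i (Finset.mem_union_right _ hi)⟩
      · rintro ⟨h1, h2⟩ i hi
        rcases Finset.mem_union.1 hi with h | h
        · exact h1 i h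
        · exact h2 i h) (by
        have e1 := hent (A ∪ B)
        have e2 := hent A
        have e3 := hent B
        show entropy (P.map (fun x (i : ((A ∪ B : Finset (Fin 9)) : Set (Fin 9))) => x i)) =
          entropy (P.map (fun x (i : (A : Set (Fin 9))) => x i)) +
          entropy (P.map (fun x (i : (B : Set (Fin 9))) => x i))
        rw [e1, e2, e3, hRAB]
        push_cast
        ring)
    refine ⟨h1, ?_⟩
    intro x y hx hy
    obtain ⟨z, hz, hz1, hz2⟩ := h2 x y hx hy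
    exact ⟨z, hz, (hres A z x).1 hz1, (hres B z y).1 hz2⟩
  -- uniform marginals
  have cpos : ∀ A x, P x ≠ 0 → atom P (res A) x ≠ 0 := by
    intro A x hx h
    have := atom_pos P (res A) hx
    rw [h] at this
    simp at this
  have triple : ∀ i j k : Fin 9, R {i} = 1 → R {j} = 1 → R ({i} ∪ {j}) = 2 → R ({i} ∪ {k}) = 2 →
      R ({j} ∪ {k}) = 2 → R {k} = 1 → R ({i} ∪ {j} ∪ {k}) = 2 →
      ∀ x, P x ≠ 0 → atom P (res {i}) x = 15⁻¹ ∧ atom P (res {j}) x = 15⁻¹ ∧
        atom P (res {k}) x = 15⁻¹ := by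
    intro i j k hi hj hij hik hjk hk hijk
    have a1 : ∀ x, P x ≠ 0 → atom P (res {i}) x = atom P (res {j}) x ∧
        atom P (res {i}) x = atom P (res {k}) x := by
      intro x hx
      have e1 := (F2 {i} {j} (by rw [hij, hi, hj])).1 x hx
      have e2 := (F2 {i} {k} (by rw [hik, hi, hk])).1 x hx
      have e3 := (F2 {j} {k} (by rw [hjk, hj, hk])).1 x hx
      have f1 := (F1 ({i} ∪ {j}) ({i} ∪ {j} ∪ {k}) Finset.subset_union_left (by rw [hij, hijk])).1 x hx
      have f2 := (F1 ({i} ∪ {k}) ({i} ∪ {j} ∪ {k}) (by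
        intro e he
        simp only [Finset.mem_union, Finset.mem_singleton] at he ⊢
        tauto) (by rw [hik, hijk])).1 x hx
      have f3 := (F1 ({j} ∪ {k}) ({i} ∪ {j} ∪ {k}) (by
        intro e he
        simp only [Finset.mem_union, Finset.mem_singleton] at he ⊢
        tauto) (by rw [hjk, hijk])).1 x hx
      constructor
      · have : atom P (res {i}) x * atom P (res {k}) x = atom P (res {j}) x * atom P (res {k}) x := by
          rw [← e2, ← e3, f2, f3]
        exact (ENNReal.mul_left_inj (cpos _ x hx) (atom_ne_top P _ x)).1 this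
      · have : atom P (res {i}) x * atom P (res {j}) x = atom P (res {k}) x * atom P (res {j}) x := by
          rw [← e1, mul_comm (atom P (res {k}) x), ← e3, f1, f3]
        exact (ENNReal.mul_left_inj (cpos _ x hx) (atom_ne_top P _ x)).1 this
    -- constant
    have a2 : ∀ x y, P x ≠ 0 → P y ≠ 0 → atom P (res {i}) x = atom P (res {j}) y := by
      intro x y hx hy
      obtain ⟨z, hz, hz1, hz2⟩ := (F2 {i} {j} (by rw [hij, hi, hj])).2 x y hx hy
      have g1 : atom P (res {i}) z = atom P (res {i}) x := by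
        have : res {i} z = res {i} x := (hres _ _ _).2 hz1
        unfold atom; rw [this]
      have g2 : atom P (res {j}) z = atom P (res {j}) y := by
        have : res {j} z = res {j} y := (hres _ _ _).2 hz2
        unfold atom; rw [this]
      rw [← g1, ← g2]
      exact (a1 z hz).1
    obtain ⟨x₀, hx₀⟩ := P.support_nonempty
    have hx₀' : P x₀ ≠ 0 := hx₀
    have a3 : ∀ x, P x ≠ 0 → atom P (res {i}) x = atom P (res {j}) x₀ := fun x hx => a2 x x₀ hx hx₀'
    have a4 := const_atom P hP (res {i}) _ a3 (by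
      have := hent {i}
      rw [hi, Nat.cast_one, mul_one] at this
      exact this)
    intro x hx
    have b1 : atom P (res {i}) x = 15⁻¹ := by rw [a3 x hx, a4]
    exact ⟨b1, by rw [← (a1 x hx).1, b1], by rw [← (a1 x hx).2, b1]⟩
  have t0 := triple 3 0 4 (val _ 503 1 (by decide +kernel)) (val _ 510 1 (by decide +kernel))
    (val _ 502 2 (by decide +kernel)) (val _ 487 2 (by decide +kernel))
    (val _ 494 2 (by decide +kernel)) (val _ 495 1 (by decide +kernel)) (val _ 486 2 (by decide +kernel))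
  have t1 := triple 0 1 5 (val _ 510 1 (by decide +kernel)) (val _ 509 1 (by decide +kernel))
    (val _ 508 2 (by decide +kernel)) (val _ 478 2 (by decide +kernel))
    (val _ 477 2 (by decide +kernel)) (val _ 479 1 (by decide +kernel)) (val _ 476 2 (by decide +kernel))
  have t2 := triple 1 2 6 (val _ 509 1 (by decide +kernel)) (val _ 507 1 (by decide +kernel))
    (val _ 505 2 (by decide +kernel)) (val _ 445 2 (by decide +kernel))
    (val _ 443 2 (by decide +kernel)) (val _ 447 1 (by decide +kernel)) (val _ 441 2 (by decide +kernel))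
  have t3 := triple 2 3 7 (val _ 507 1 (by decide +kernel)) (val _ 503 1 (by decide +kernel))
    (val _ 499 2 (by decide +kernel)) (val _ 379 2 (by decide +kernel))
    (val _ 375 2 (by decide +kernel)) (val _ 383 1 (by decide +kernel)) (val _ 371 2 (by decide +kernel))
  -- the variable 8
  have t8 : ∀ x, P x ≠ 0 → atom P (res {8}) x = 15⁻¹ := by
    intro x hx
    have e1 := (F2 ({4} ∪ {5}) {6} (by
      rw [val ({4} ∪ {5} ∪ {6}) 399 3 (by decide +kernel), val ({4} ∪ {5}) 463 2 (by decide +kernel),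
        val {6} 447 1 (by decide +kernel)])).1 x hx
    have e2 := (F2 ({4} ∪ {5}) {8} (by
      rw [val ({4} ∪ {5} ∪ {8}) 207 3 (by decide +kernel), val ({4} ∪ {5}) 463 2 (by decide +kernel),
        val {8} 255 1 (by decide +kernel)])).1 x hx
    have f1 := (F1 ({4} ∪ {5} ∪ {6}) {4, 5, 6, 8} (by decide) (by
      rw [val ({4} ∪ {5} ∪ {6}) 399 3 (by decide +kernel), val {4, 5, 6, 8} 143 3 (by decide +kernel)])).1 x hx
    have f2 := (F1 ({4} ∪ {5} ∪ {8}) {4, 5, 6, 8} (by decide) (by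
      rw [val ({4} ∪ {5} ∪ {8}) 207 3 (by decide +kernel), val {4, 5, 6, 8} 143 3 (by decide +kernel)])).1 x hx
    have h1 : atom P (res ({4} ∪ {5})) x * atom P (res {8}) x =
        atom P (res ({4} ∪ {5})) x * atom P (res {6}) x := by
      rw [← e1, ← e2, f1, f2]
    rw [(ENNReal.mul_right_inj (cpos _ x hx) (atom_ne_top P _ x)).1 h1]
    exact (t2 x hx).2.2
  have tall : ∀ e : Fin 9, ∀ x, P x ≠ 0 → atom P (res {e}) x = 15⁻¹ := by
    intro e x hx
    fin_cases e
    · exact (t0 x hx).2.1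
    · exact (t1 x hx).2.1
    · exact (t2 x hx).2.1
    · exact (t0 x hx).1
    · exact (t0 x hx).2.2
    · exact (t1 x hx).2.2
    · exact (t2 x hx).2.2
    · exact (t3 x hx).2.2
    · exact t8 x hx
  -- supports of the coordinates
  let Q : ∀ e : Fin 9, PMF (α e) := fun e => P.map (fun x => x e)
  have hQx : ∀ (e : Fin 9) (x : ∀ i, α i), P x ≠ 0 → Q e (x e) = 15⁻¹ := by
    intro e x hx
    have h1 : Q e (x e) = atom P (fun x : ∀ i, α i => x e) x := rfl
    rw [h1, atom_congr P (fun x : ∀ i, α i => x e) (res {e}) x (fun y => by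
      rw [hres]; simp)]
    exact tall e x hx
  have hQs : ∀ (e : Fin 9) (b : α e), Q e b ≠ 0 → ∃ x, P x ≠ 0 ∧ x e = b := by
    intro e b hb
    have h1 : b ∈ (P.map (fun x : ∀ i, α i => x e)).support := hb
    rw [PMF.support_map] at h1
    obtain ⟨x, hx, hxb⟩ := h1
    exact ⟨x, hx, hxb⟩
  have hcardV : ∀ e : Fin 9, Nat.card {b : α e // Q e b ≠ 0} = 15 := by
    intro e
    have h1 : ∑' b : α e, Q e b = 1 := (Q e).tsum_coe
    have h2 : ∑' b : {b : α e // Q e b ≠ 0}, Q e b = 1 := by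
      rw [← h1]
      exact tsum_subtype_eq_of_support_subset (f := fun b => Q e b) (s := {b | Q e b ≠ 0})
        (fun b hb => hb)
    have h3 : ∀ b : {b : α e // Q e b ≠ 0}, Q e b = 15⁻¹ := by
      rintro ⟨b, hb⟩
      obtain ⟨x, hx, rfl⟩ := hQs e b hb
      exact hQx e x hx
    rw [tsum_congr h3, ENNReal.tsum_const] at h2
    have h4 : (ENat.card {b : α e // Q e b ≠ 0} : ℝ≥0∞) = 15 := by
      have h5 : ((ENat.card {b : α e // Q e b ≠ 0} : ℝ≥0∞) * 15⁻¹) * 15 = 1 * 15 := by rw [h2]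
      rw [mul_assoc, ENNReal.inv_mul_cancel (by norm_num) (by norm_num), mul_one, one_mul] at h5
      exact h5
    have h6 : ENat.card {b : α e // Q e b ≠ 0} = (15 : ℕ) := by
      have : ((ENat.card {b : α e // Q e b ≠ 0} : ℕ∞) : ℝ≥0∞) = (((15 : ℕ) : ℕ∞) : ℝ≥0∞) := by
        rw [h4]; simp
      exact_mod_cast this
    unfold Nat.card
    rw [ENat.card] at h6
    have h7 := congrArg ENat.toNat h6
    simpa using h7
  have hφ : ∀ e : Fin 9, Nonempty ({b : α e // Q e b ≠ 0} ≃ Fin 15) := by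
    intro e
    haveI : Finite {b : α e // Q e b ≠ 0} := Nat.finite_of_card_ne_zero (by rw [hcardV]; norm_num)
    exact ⟨Finite.equivFinOfCardEq (hcardV e)⟩
  have φ : ∀ e : Fin 9, {b : α e // Q e b ≠ 0} ≃ Fin 15 := fun e => Classical.choice (hφ e)
  have hmem : ∀ (x : ∀ i, α i), P x ≠ 0 → ∀ e, Q e (x e) ≠ 0 := by
    intro x hx e
    rw [hQx e x hx]
    simp
  let enc : {x : ∀ i, α i // P x ≠ 0} → Fin 9 → Fin 15 := fun x e => φ e ⟨x.1 e, hmem x.1 x.2 e⟩
  have henc : ∀ x y e, enc x e = enc y e ↔ x.1 e = y.1 e := by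
    intro x y e
    constructor
    · intro h
      have := (φ e).injective h
      exact congrArg Subtype.val this
    · intro h
      show φ e _ = φ e _
      congr 1
      exact Subtype.ext h
  have hsurj : ∀ (e : Fin 9) (s : Fin 15), ∃ x, enc x e = s := by
    intro e s
    obtain ⟨b, hb⟩ := (φ e).surjective s
    obtain ⟨x, hx, hxb⟩ := hQs e b.1 b.2
    refine ⟨⟨x, hx⟩, ?_⟩
    rw [← hb]
    show φ e _ = φ e b
    congr 1
    exact Subtype.ext hxb
  let C : Set (Fin 9 → Fin 15) := Set.range enc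
  have comb : ∀ A B : Finset (Fin 9), R (A ∪ B) = R A + R B → ∀ x y, ∃ z,
      (∀ i ∈ A, enc z i = enc x i) ∧ (∀ i ∈ B, enc z i = enc y i) := by
    intro A B h x y
    obtain ⟨z, hz, hz1, hz2⟩ := (F2 A B h).2 x.1 y.1 x.2 y.2
    refine ⟨⟨z, hz⟩, ?_, ?_⟩
    · intro i hi
      rw [henc]; exact hz1 i hi
    · intro i hi
      rw [henc]; exact hz2 i hi
  have cdet : ∀ (A B : Finset (Fin 9)) (e : Fin 9), A ⊆ B → R A = R B → e ∈ B → CDet C A e := by
    rintro A B e hAB hRAB he _ ⟨x, rfl⟩ _ ⟨y, rfl⟩ h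
    rw [henc]
    apply (F1 A B hAB hRAB).2 x.1 y.1 x.2 y.2 _ e he
    intro i hi
    rw [← henc]
    exact h i hi
  apply no_code (by simp) C
  · intro x y w v
    obtain ⟨x3, h3⟩ := hsurj 3 x
    obtain ⟨x0, h0⟩ := hsurj 0 y
    obtain ⟨x1, h1⟩ := hsurj 1 w
    obtain ⟨x2, h2⟩ := hsurj 2 v
    obtain ⟨z1, a1, a2⟩ := comb {3} {0} (by
      rw [val ({3} ∪ {0}) 502 2 (by decide +kernel), val {3} 503 1 (by decide +kernel),
        val {0} 510 1 (by decide +kernel)]) x3 x0
    obtain ⟨z2, b1, b2⟩ := comb ({3} ∪ {0}) {1} (by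
      rw [val ({3} ∪ {0} ∪ {1}) 500 3 (by decide +kernel), val ({3} ∪ {0}) 502 2 (by decide +kernel),
        val {1} 509 1 (by decide +kernel)]) z1 x1
    obtain ⟨z3, c1, c2⟩ := comb ({3} ∪ {0} ∪ {1}) {2} (by
      rw [val ({3} ∪ {0} ∪ {1} ∪ {2}) 496 4 (by decide +kernel),
        val ({3} ∪ {0} ∪ {1}) 500 3 (by decide +kernel), val {2} 507 1 (by decide +kernel)]) z2 x2
    refine ⟨enc z3, ⟨z3, rfl⟩, ?_, ?_, ?_, ?_⟩
    · rw [c1 3 (by simp), b1 3 (by simp), a1 3 (by simp), h3]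
    · rw [c1 0 (by simp), b1 0 (by simp), a2 0 (by simp), h0]
    · rw [c1 1 (by simp), b2 1 (by simp), h1]
    · rw [c2 2 (by simp), h2]
  · exact cdet _ {3, 0, 4} _ (by decide) (by rw [val {3, 0} 502 2 (by decide +kernel),
      val {3, 0, 4} 486 2 (by decide +kernel)]) (by decide)
  · exact cdet _ {3, 0, 4} _ (by decide) (by rw [val {0, 4} 494 2 (by decide +kernel),
      val {3, 0, 4} 486 2 (by decide +kernel)]) (by decide)
  · exact cdet _ {3, 0, 4} _ (by decide) (by rw [val {3, 4} 487 2 (by decide +kernel),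
      val {3, 0, 4} 486 2 (by decide +kernel)]) (by decide)
  · exact cdet _ {0, 1, 5} _ (by decide) (by rw [val {0, 1} 508 2 (by decide +kernel),
      val {0, 1, 5} 476 2 (by decide +kernel)]) (by decide)
  · exact cdet _ {0, 1, 5} _ (by decide) (by rw [val {0, 5} 478 2 (by decide +kernel),
      val {0, 1, 5} 476 2 (by decide +kernel)]) (by decide)
  · exact cdet _ {0, 1, 5} _ (by decide) (by rw [val {1, 5} 477 2 (by decide +kernel),
      val {0, 1, 5} 476 2 (by decide +kernel)]) (by decide)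
  · exact cdet _ {1, 2, 6} _ (by decide) (by rw [val {1, 2} 505 2 (by decide +kernel),
      val {1, 2, 6} 441 2 (by decide +kernel)]) (by decide)
  · exact cdet _ {1, 2, 6} _ (by decide) (by rw [val {1, 6} 445 2 (by decide +kernel),
      val {1, 2, 6} 441 2 (by decide +kernel)]) (by decide)
  · exact cdet _ {1, 2, 6} _ (by decide) (by rw [val {2, 6} 443 2 (by decide +kernel),
      val {1, 2, 6} 441 2 (by decide +kernel)]) (by decide)
  · exact cdet _ {2, 3, 7} _ (by decide) (by rw [val {2, 3} 499 2 (by decide +kernel),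
      val {2, 3, 7} 371 2 (by decide +kernel)]) (by decide)
  · exact cdet _ {2, 3, 7} _ (by decide) (by rw [val {2, 7} 379 2 (by decide +kernel),
      val {2, 3, 7} 371 2 (by decide +kernel)]) (by decide)
  · exact cdet _ {2, 3, 7} _ (by decide) (by rw [val {3, 7} 375 2 (by decide +kernel),
      val {2, 3, 7} 371 2 (by decide +kernel)]) (by decide)
  · exact cdet _ {4, 5, 6, 7} _ (by decide) (by rw [val {4, 6, 7} 303 3 (by decide +kernel),
      val {4, 5, 6, 7} 271 3 (by decide +kernel)]) (by decide)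
  · exact cdet _ {4, 5, 6, 7} _ (by decide) (by rw [val {4, 5, 6} 399 3 (by decide +kernel),
      val {4, 5, 6, 7} 271 3 (by decide +kernel)]) (by decide)
  · intro i hi j hj hij s t u
    have h1 : ∀ i ∈ ({4, 5, 6, 7} : Finset (Fin 9)), 511 - 2 ^ (i : ℕ) < 512 ∧
        Rep (511 - 2 ^ (i : ℕ)) ({i} : Finset (Fin 9))ᶜ ∧
        rkN (511 - 2 ^ (i : ℕ)) + ({i} : Finset (Fin 9)).card = 1 + 5 := by decide +kernel
    have h2 : ∀ i ∈ ({4, 5, 6, 7} : Finset (Fin 9)), ∀ j ∈ ({4, 5, 6, 7} : Finset (Fin 9)), i ≠ j →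
        511 - 2 ^ (i : ℕ) - 2 ^ (j : ℕ) < 512 ∧
        Rep (511 - 2 ^ (i : ℕ) - 2 ^ (j : ℕ)) ({i} ∪ {j} : Finset (Fin 9))ᶜ ∧
        rkN (511 - 2 ^ (i : ℕ) - 2 ^ (j : ℕ)) + ({i} ∪ {j} : Finset (Fin 9)).card = 2 + 5 := by
      decide +kernel
    have h3 : ∀ i ∈ ({4, 5, 6, 7} : Finset (Fin 9)), ∀ j ∈ ({4, 5, 6, 7} : Finset (Fin 9)), i ≠ j →
        255 - 2 ^ (i : ℕ) - 2 ^ (j : ℕ) < 512 ∧
        Rep (255 - 2 ^ (i : ℕ) - 2 ^ (j : ℕ)) ({i} ∪ {j} ∪ {8} : Finset (Fin 9))ᶜ ∧
        rkN (255 - 2 ^ (i : ℕ) - 2 ^ (j : ℕ)) + ({i} ∪ {j} ∪ {8} : Finset (Fin 9)).card = 3 + 5 := by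
      decide +kernel
    obtain ⟨x, hx⟩ := hsurj i s
    obtain ⟨y, hy⟩ := hsurj j t
    obtain ⟨w, hw⟩ := hsurj 8 u
    obtain ⟨z1, a1, a2⟩ := comb {i} {j} (by
      rw [val _ _ _ (h2 i hi j hj hij), val _ _ _ (h1 i hi), val _ _ _ (h1 j hj)]) x y
    obtain ⟨z2, b1, b2⟩ := comb ({i} ∪ {j}) {8} (by
      rw [val _ _ _ (h3 i hi j hj hij), val _ _ _ (h2 i hi j hj hij),
        val {8} 255 1 (by decide +kernel)]) z1 w
    refine ⟨enc z2, ⟨z2, rfl⟩, ?_, ?_, ?_⟩
    · rw [b1 i (by simp), a1 i (by simp), hx]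
    · rw [b1 j (by simp), a2 j (by simp), hy]
    · rw [b2 8 (by simp), hw]
  · intro i hi j hj hij k hk
    have h3 : ∀ i ∈ ({4, 5, 6, 7} : Finset (Fin 9)), ∀ j ∈ ({4, 5, 6, 7} : Finset (Fin 9)), i ≠ j →
        255 - 2 ^ (i : ℕ) - 2 ^ (j : ℕ) < 512 ∧
        Rep (255 - 2 ^ (i : ℕ) - 2 ^ (j : ℕ)) ({i, j, 8} : Finset (Fin 9))ᶜ ∧
        rkN (255 - 2 ^ (i : ℕ) - 2 ^ (j : ℕ)) + ({i, j, 8} : Finset (Fin 9)).card = 3 + 5 := by
      decide +kernel
    have h4 : ∀ i ∈ ({4, 5, 6, 7} : Finset (Fin 9)), ∀ j ∈ ({4, 5, 6, 7} : Finset (Fin 9)),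
        ({i, j, 8} : Finset (Fin 9)) ⊆ {4, 5, 6, 7, 8} := by decide +kernel
    exact cdet _ {4, 5, 6, 7, 8} _ (h4 i hi j hj) (by
      rw [val _ _ _ (h3 i hi j hj hij), val {4, 5, 6, 7, 8} 15 3 (by decide +kernel)])
      (by
        have h5 : ({4, 5, 6, 7} : Finset (Fin 9)) ⊆ {4, 5, 6, 7, 8} := by decide +kernel
        exact h5 hk)

end PChar823
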